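import Pool.Statements.S01025
import Pool.Agent.H374.A26

set_option autoImplicit false
open Pool Pool.MP_2a22ca_al

namespace Pool.Agent.S01025

/-- For k ≥ 1 and n = k(k+1)/2, an irreducible S_n character [λ] (Jacobi–Trudi) is a constituent of the symmetric square of the staircase character [ρ_k] exactly unless λ = 1^n and k ≡ 2 mod 4. -/
theorem result :
  ∀ k : ℕ, 1 ≤ k → ∀ n : ℕ, n = k * (k + 1) / 2 →
  ∀ χ : (Fin n → ℕ) → Equiv.Perm (Fin n) → ℤ,
    (∀ (lam : Fin n → ℕ) (g : Equiv.Perm (Fin n)),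
      χ lam g = ∑ σ : Equiv.Perm (Fin n), ((Equiv.Perm.sign σ : ℤˣ) : ℤ) *
        ((Finset.univ.filter (fun f : Fin n → Fin n =>
            (∀ i : Fin n, (((Finset.univ.filter (fun x : Fin n => f x = i)).card : ℕ) : ℤ)
                = ((lam i : ℕ) : ℤ) - ((i.val : ℕ) : ℤ) + (((σ i).val : ℕ) : ℤ)) ∧
            ∀ x : Fin n, f (g x) = f x)).card : ℤ)) →
    ∀ lam : Fin n → ℕ, Antitone lam → ∑ i, lam i = n →
      (0 < ∑ g : Equiv.Perm (Fin n),
          (χ (fun i => k - i.val) g ^ 2 + χ (fun i => k - i.val) (g * g)) * χ lam g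
        ↔ ¬ (k % 4 = 2 ∧ lam = fun _ => 1)) := by
  intro k _ n hn χ hχ lam ha hs
  exact Pool.Agent.H374.main k n hn χ hχ lam ha hs

end Pool.Agent.S01025
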