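import Pool.Statements.S01283
import Pool.Agent.H371.SA.TT

set_option autoImplicit false
open Pool Pool.MP_3f3a05_al

namespace Pool.Agent.S01283

/-- For every m, the group G = GL_m(Z) satisfies the strong Atiyah conjecture over C: for each matrix A over the group ring CG, N times the von Neumann dimension of ker A on l²(G)^k is an integer, for N any common multiple of the finite subgroup orders. -/
theorem result :
    ∀ m : ℕ, ∀ N : ℕ,
      (∀ H : Subgroup (Matrix.GeneralLinearGroup (Fin m) ℤ), Finite H → Nat.card H ∣ N) →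
      ∀ k n : ℕ, ∀ A : Matrix (Fin k) (Fin n) (Matrix.GeneralLinearGroup (Fin m) ℤ →₀ ℂ),
        ∃ z : ℤ, (N : ℝ) * ∑ j : Fin k,
          (1 - Metric.infDist
              (lp.single 2 (j, (1 : Matrix.GeneralLinearGroup (Fin m) ℤ)) (1 : ℂ) :
                lp (fun _ : Fin k × Matrix.GeneralLinearGroup (Fin m) ℤ => ℂ) 2)
              {x : lp (fun _ : Fin k × Matrix.GeneralLinearGroup (Fin m) ℤ => ℂ) 2 |
                ∀ i : Fin n, ∀ g : Matrix.GeneralLinearGroup (Fin m) ℤ,
                  ∑ j' : Fin k, ∑ h ∈ (A j' i).support, x (j', g * h⁻¹) * A j' i h = 0} ^ 2)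
          = (z : ℝ) := by
  intro m N hN k n A
  exact Pool.Agent.H371.SA.main_frozen _ (fun p _ => Pool.Agent.H371.SA.Good.gl p m) N hN k n A

end Pool.Agent.S01283
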