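import Pool.Statements.S01859
import Pool.Agent.H318.QI.Main

set_option autoImplicit false
open Pool Pool.MP_6fc7a0_al

namespace Pool.Agent.S01859

/-- For every finite group G, any set of group quasi-identities that is an independent basis for G's quasi-identities is finite. Here a basis proves, over all groups, exactly the quasi-identities true in G, and independent means no member follows from the others. -/
theorem result :
    ∀ (G : Type) [Group G] [Finite G] (S : Set (Finset (FreeGroup ℕ) × FreeGroup ℕ)),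
      (∀ q : Finset (FreeGroup ℕ) × FreeGroup ℕ,
          (∀ φ : FreeGroup ℕ →* G, (∀ w ∈ q.1, φ w = 1) → φ q.2 = 1) ↔
          (∀ (H : Type) [Group H],
            (∀ p ∈ S, ∀ ψ : FreeGroup ℕ →* H, (∀ w ∈ p.1, ψ w = 1) → ψ p.2 = 1) →
            ∀ ψ : FreeGroup ℕ →* H, (∀ w ∈ q.1, ψ w = 1) → ψ q.2 = 1)) →
      (∀ σ ∈ S, ¬ (∀ (H : Type) [Group H],
            (∀ p ∈ S, p ≠ σ → ∀ ψ : FreeGroup ℕ →* H, (∀ w ∈ p.1, ψ w = 1) → ψ p.2 = 1) →
            ∀ ψ : FreeGroup ℕ →* H, (∀ w ∈ σ.1, ψ w = 1) → ψ σ.2 = 1)) →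
      S.Finite := by
  intro G _ _ S hb hind
  exact Pool.Agent.H318.QI.main G S hb hind

end Pool.Agent.S01859
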