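import Pool.Statements.S02360
import Pool.Agent.H379.NK.Concl
import Pool.Agent.H707.NK.S02360

set_option autoImplicit false
open Pool Pool.MP_95779f_al

namespace Pool.Agent.S02360

/-- The negation of the preceding statement: For an Artin algebra A over a commutative Artinian ring R, if Ext^i_A(I, A) = 0 for all i > 0 and all finitely generated injective left A-modules I, then A is injective as a left module over itself. -/
theorem result :
    ¬ (∀ (R A : Type) [CommRing R] [IsArtinianRing R] [Ring A] [Algebra R A] [Module.Finite R A]
      [CategoryTheory.HasExt.{0} (ModuleCat.{0} A)],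
      (∀ (I : ModuleCat.{0} A), Module.Finite A I → Module.Injective A I →
        ∀ i : ℕ, 0 < i → Subsingleton (CategoryTheory.Abelian.Ext I (ModuleCat.of A A) i)) →
      Module.Injective A A) := by
  obtain ⟨A, _, _, h⟩ := Pool.Agent.H379.NK.tachikawa_one_false
  exact Pool.Agent.H707.NK.s02360_core ℚ A h.1 h.2.1 h.2.2

end Pool.Agent.S02360
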