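import Pool.Statements.S02529
import Pool.Agent.H351.QE.Asm
import Pool.Agent.H351.QE.CONC
import Pool.Agent.H351.QE.GAP1
import Pool.Agent.H351.QE.GAP2
import Pool.Agent.H351.QE.HOR
import Pool.Agent.H351.QE.MOVE
import Pool.Agent.H351.QE.CMT
import Pool.Agent.H351.QE.PATH
import Pool.Agent.H351.QE.NONAM
import Pool.Agent.H351.QE.FOL
import Pool.Agent.H351.QE.POLY
import Pool.Agent.H351.QE.TWO
import Pool.Agent.H351.QE.B12
import Pool.Agent.H351.QE.QI
import Pool.Agent.H351.QE.ENDS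

set_option autoImplicit false
open Classical
open Pool Pool.MP_a15413_al

namespace Pool.Agent.S02529

/-- For nontrivial finite F1, F2 and finitely generated H1, H2: if the lamplighter groups F1 wr H1 and F2 wr H2 are quasi-isometric (word metrics), then Cayley graphs of H1 and H2 have equally many ends. -/
theorem result :
    ∀ (F₁ F₂ H₁ H₂ : Type) [Group F₁] [Group F₂] [Group H₁] [Group H₂]
      [Finite F₁] [Finite F₂] [Nontrivial F₁] [Nontrivial F₂],
      Group.FG H₁ → Group.FG H₂ →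
      ∀ (L₁ : Subgroup (RegularWreathProduct F₁ H₁)) (L₂ : Subgroup (RegularWreathProduct F₂ H₂)),
        L₁ = Subgroup.closure
            (Set.range (fun a : F₁ =>
                (⟨Pi.mulSingle (1 : H₁) a, (1 : H₁)⟩ : RegularWreathProduct F₁ H₁)) ∪
             Set.range (fun h : H₁ =>
                (⟨(1 : H₁ → F₁), h⟩ : RegularWreathProduct F₁ H₁))) →
        L₂ = Subgroup.closure
            (Set.range (fun a : F₂ =>
                (⟨Pi.mulSingle (1 : H₂) a, (1 : H₂)⟩ : RegularWreathProduct F₂ H₂)) ∪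
             Set.range (fun h : H₂ =>
                (⟨(1 : H₂ → F₂), h⟩ : RegularWreathProduct F₂ H₂))) →
        (∃ (S₁ : Finset ↥L₁) (S₂ : Finset ↥L₂),
          Subgroup.closure (↑S₁ : Set ↥L₁) = ⊤ ∧ Subgroup.closure (↑S₂ : Set ↥L₂) = ⊤ ∧
          ∃ f : ↥L₁ → ↥L₂, ∃ K C : ℝ, 0 < K ∧ 0 ≤ C ∧
            (∀ x y : ↥L₁,
              ((SimpleGraph.fromRel (fun a b : ↥L₂ => ∃ s ∈ S₂, b = a * s)).dist (f x) (f y) : ℝ)
                  ≤ K * ((SimpleGraph.fromRel (fun a b : ↥L₁ => ∃ s ∈ S₁, b = a * s)).dist x y : ℝ) + C ∧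
              ((SimpleGraph.fromRel (fun a b : ↥L₁ => ∃ s ∈ S₁, b = a * s)).dist x y : ℝ)
                  ≤ K * ((SimpleGraph.fromRel (fun a b : ↥L₂ => ∃ s ∈ S₂, b = a * s)).dist (f x) (f y) : ℝ) + C) ∧
            (∀ z : ↥L₂, ∃ x : ↥L₁,
              ((SimpleGraph.fromRel (fun a b : ↥L₂ => ∃ s ∈ S₂, b = a * s)).dist z (f x) : ℝ) ≤ C)) →
        ∀ (T₁ : Finset H₁) (T₂ : Finset H₂),
          Subgroup.closure (↑T₁ : Set H₁) = ⊤ → Subgroup.closure (↑T₂ : Set H₂) = ⊤ →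
          Cardinal.mk ↥((SimpleGraph.fromRel (fun a b : H₁ => ∃ s ∈ T₁, b = a * s)).componentComplFunctor.sections)
            = Cardinal.mk ↥((SimpleGraph.fromRel (fun a b : H₂ => ∃ s ∈ T₂, b = a * s)).componentComplFunctor.sections) :=
  Pool.Agent.H351.QE.asm
    (Pool.Agent.H351.QE.one
      (Pool.Agent.H351.QE.gap Pool.Agent.H351.QE.GAP1.main
        (Pool.Agent.H351.QE.GAP2.main
          (Pool.Agent.H351.QE.CONC.low Pool.Agent.H351.QE.CONC.conc)))
      (Pool.Agent.H351.QE.HOR.main Pool.Agent.H351.QE.CONC.conc)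
      Pool.Agent.H351.QE.MOVE.main
      Pool.Agent.H351.QE.CMT.main
      (Pool.Agent.H351.QE.PATH.main
        (Pool.Agent.H351.QE.CONC.low Pool.Agent.H351.QE.CONC.conc)
        Pool.Agent.H351.QE.MOVE.main Pool.Agent.H351.QE.CMT.main))
    Pool.Agent.H351.QE.NONAM.main
    Pool.Agent.H351.QE.FOL.main
    Pool.Agent.H351.QE.POLY.poly
    Pool.Agent.H351.QE.TWO.main
    Pool.Agent.H351.QE.POLY.lgr
    (Pool.Agent.H351.QE.B12.main Pool.Agent.H351.QE.CONC.conc)
    Pool.Agent.H351.QE.QI.main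
    Pool.Agent.H351.QE.ENDS.main
    Pool.Agent.H351.QE.CONT.main

end Pool.Agent.S02529
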