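import Pool.Statements.S02616
import Pool.Agent.H349.TM.Grp

set_option autoImplicit false
open Pool Pool.MP_a8e993_al

namespace Pool.Agent.S02616

/-- The negation of the preceding statement: Take a group G that is (finitely generated free)-by-ℤ and not the fundamental group of any compact 3-manifold. Then every finitely generated abelian group A is a direct summand of the abelianisation of some finite-index subgroup of G. -/
theorem result :
    ¬ (∀ (G : Type) [Group G] (N : Subgroup G) [N.Normal] (n : ℕ),
      Nonempty (↥N ≃* FreeGroup (Fin n)) →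
      Nonempty (G ⧸ N ≃* Multiplicative ℤ) →
      (¬ ∃ (M : Type) (_ : TopologicalSpace M) (_ : T2Space M) (_ : CompactSpace M)
          (_ : ChartedSpace (EuclideanHalfSpace 3) M) (x : M),
          Nonempty (FundamentalGroup M x ≃* G)) →
      ∀ (A : Type) [AddCommGroup A] [AddGroup.FG A],
        ∃ (H : Subgroup G), H.FiniteIndex ∧
          ∃ (B : Type) (_ : AddCommGroup B),
            Nonempty (Additive (Abelianization ↥H) ≃+ A × B)) := by
  intro h
  obtain ⟨H, _, B, hB, e⟩ := h Pool.Agent.H349.TM.Gp Pool.Agent.H349.TM.Nn 3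
    Pool.Agent.H349.TM.Nn_free ⟨Pool.Agent.H349.TM.Nq⟩ Pool.Agent.H349.TM.not_mfd (ZMod 3)
  exact Pool.Agent.H349.TM.no_three H ⟨B, hB, e⟩

end Pool.Agent.S02616
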