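import Pool.Statements.S03350
import Pool.Agent.H316.EM.Asm
import Pool.Agent.H316.EM.Core5
import Pool.Agent.H353.EMAAUN
import Pool.Agent.H286.EM.EMA1
import Pool.Agent.H814.EMIDEAL
import Pool.Agent.H100.EMUNI
import Pool.Agent.H343.EM.EMGF
import Pool.Agent.H155.EMPURE
import Pool.Agent.H190.EMCHAIN
import Pool.Agent.H52.EM.EMJAC
import Pool.Agent.H114.EMFINAL
import Pool.Agent.H935.EMFIX
import Pool.Agent.H200.EMART
import Pool.Agent.H284.EMANN
import Pool.Agent.H338.EMORB
import Pool.Agent.H757.EM.SUB
import Pool.Agent.H356.EMQUO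
import Pool.Agent.H268.EM.EMMK
import Pool.Agent.H385.EMFINAUT
import Pool.Agent.H603.EMNIL
import Pool.Agent.H824.EM.EMDER
import Pool.Agent.H722.EMNILC
import Pool.Agent.H154.EMCNJ
import Pool.Agent.H860.EMRED1
import Pool.Agent.H289.EMRED3
import Pool.Agent.H967.EMGRP

/-!
# MP_e2f787 (S03350): a finitely generated (elementary abelian 2)-by-polycyclic group which does not embed
in the automorphism group of a finitely generated metabelian group

The group is `AA ⋊ (ℤ² ⋊ ℤ)`, with `ℤ` acting on `B = ℤ²` by the Fibonacci automorphism `θ`, where `AA` is the submodule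
generated by `1` of the fraction field `KK` of `𝔽₂[B]`, on which `B` acts by multiplication and the generator of `ℤ` by
`x ↦ (1 - e(1,0))⁻¹ θ(x)`. See `Pool.Agent.H316.EM` for the definitions and the lemmas.
-/

set_option autoImplicit false
open Pool Pool.MP_e2f787_al

namespace Pool.Agent.S03350

/-- The negation of the preceding statement: For every finitely generated group G with a normal abelian subgroup A such that G/A is polycyclic-by-finite, there is a finitely generated metabelian group M with G embedding into the automorphism group of M. -/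
theorem result :
    ¬ (∀ (G : Type) [Group G] [Group.FG G] (A : Subgroup G) [A.Normal],
      (∀ x ∈ A, ∀ y ∈ A, x * y = y * x) →
      (∀ H : Subgroup (G ⧸ A), H.FG) →
      (∃ K : Subgroup (G ⧸ A), K.index ≠ 0 ∧ IsSolvable K) →
      ∃ (M : Type) (_ : Group M), Group.FG M ∧ derivedSeries M 2 = ⊥ ∧
        ∃ f : G →* MulAut M, Function.Injective f) :=
  have hAAUN := Pool.Agent.H353.em_aaun
  have hA1 := Pool.Agent.H286.em_a1 hAAUN
  have hACC := Pool.Agent.H338.em_acc
  have hUNI := Pool.Agent.H100.em_uni
  have hCORE := Pool.Agent.H316.EM.core hA1 hAAUN Pool.Agent.H814.em_ideal hUNI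
    Pool.Agent.H343.em_gf Pool.Agent.H155.em_pure Pool.Agent.H190.em_chain Pool.Agent.H155.em_ser
    Pool.Agent.H52.em_jac Pool.Agent.H114.em_final
  Pool.Agent.H316.EM.main
    (Pool.Agent.H316.EM.part1 Pool.Agent.H385.em_finaut Pool.Agent.H603.em_nil Pool.Agent.H268.em_mk
      Pool.Agent.H385.em_fgn Pool.Agent.H385.em_fi1 Pool.Agent.H824.EM.em_der Pool.Agent.H722.em_nilc
      Pool.Agent.H154.em_cnj)
    (Pool.Agent.H316.EM.nodat hACC (Pool.Agent.H757.EM.em_sub hACC) Pool.Agent.H356.em_quo
      Pool.Agent.H860.em_red1 Pool.Agent.H860.em_red2 Pool.Agent.H289.em_red3 hCORE hUNI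
      Pool.Agent.H935.em_fix Pool.Agent.H200.em_art Pool.Agent.H284.em_ann Pool.Agent.H338.em_orb)
    (Pool.Agent.H967.em_grp hAAUN)

end Pool.Agent.S03350
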