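import Pool.Statements.S03526
import Pool.Agent.H319.F3.Main

set_option autoImplicit false
open Pool Pool.MP_f313b9_al

namespace Pool.Agent.S03526

/-- The negation of the preceding statement: For every variety of groups (given by a set of laws), if its free group of rank 2 is not finitely presented, then its Schur multiplicator H_2(F, Z) is not finitely generated as an abelian group. -/
theorem result :
    ¬ (∀ W : Set (FreeGroup ℕ),
      (¬ ∃ (n : ℕ) (f : FreeGroup (Fin n) →*
          (FreeGroup (Fin 2) ⧸ Subgroup.normalClosure
            {x : FreeGroup (Fin 2) | ∃ w ∈ W, ∃ φ : FreeGroup ℕ →* FreeGroup (Fin 2), φ w = x})),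
          Function.Surjective f ∧
            ∃ S : Finset (FreeGroup (Fin n)),
              f.ker = Subgroup.normalClosure (S : Set (FreeGroup (Fin n)))) →
      ¬ Module.Finite ℤ
          (groupHomology
            (Rep.trivial ℤ
              (FreeGroup (Fin 2) ⧸ Subgroup.normalClosure
                {x : FreeGroup (Fin 2) | ∃ w ∈ W, ∃ φ : FreeGroup ℕ →* FreeGroup (Fin 2), φ w = x})
              ℤ) 2)) := by
  exact Pool.Agent.H319.F3.main

end Pool.Agent.S03526
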