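import Pool.Statements.S04384
import Pool.Agent.H231.R3.Final

set_option autoImplicit false
open Pool Pool.MP_3a7ba1_an

namespace Pool.Agent.S04384

/-- The negation of the preceding statement: For every strictly convex L on R^3 and bounded open Ω, any Lipschitz u whose integral of L(grad u) over Ω is not decreased by any compactly supported Lipschitz perturbation inside Ω is continuously differentiable on Ω. -/
theorem result :
    ¬ (∀ (L : EuclideanSpace ℝ (Fin 3) → ℝ), StrictConvexOn ℝ Set.univ L →
    ∀ (Ω : Set (EuclideanSpace ℝ (Fin 3))), IsOpen Ω → Bornology.IsBounded Ω →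
    ∀ (u : EuclideanSpace ℝ (Fin 3) → ℝ) (K : NNReal), LipschitzWith K u →
    (∀ (φ : EuclideanSpace ℝ (Fin 3) → ℝ) (M : NNReal), LipschitzWith M φ →
        HasCompactSupport φ → tsupport φ ⊆ Ω →
        ∫ x in Ω, L (gradient u x) ≤ ∫ x in Ω, L (gradient (u + φ) x)) →
    ContDiffOn ℝ 1 u Ω) := by
  intro H
  obtain ⟨L, hL, hU, hmin, hnd⟩ := Pool.Agent.H231.R3.counterexample
  have h := H L hL (Metric.ball 0 1) Metric.isOpen_ball Metric.isBounded_ball
    Pool.Agent.H231.R3.U 400 hU
    (fun φ M hφ hc hs => hmin (Metric.ball 0 1) Metric.isOpen_ball Metric.isBounded_ball φ M hφ hc hs)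
  exact hnd ((h.differentiableOn (by norm_num)).differentiableAt
    (Metric.isOpen_ball.mem_nhds (Metric.mem_ball_self one_pos)))

end Pool.Agent.S04384
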