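import Pool.Statements.S04952
import Pool.Agent.H262.EB.Slice
import Pool.Agent.H262.EB.HeroCoef
import Pool.Agent.H262.EB.AdvCoef
import Pool.Agent.H262.EB.LR
import Pool.Agent.H262.EB.Lim
import Pool.Agent.H262.EB.Coc
import Pool.Agent.H262.EB.Ps
import Pool.Agent.H262.EB.Hero
import Pool.Agent.H262.EB.Cheeger
import Pool.Agent.H262.EB.Mark
import Pool.Agent.H262.EB.Four
import Pool.Agent.H262.EB.Tail
import Pool.Agent.H262.EB.APFinal
import Pool.Agent.H262.EB.Lab
import Pool.Agent.H262.EB.Max
import Pool.Agent.H262.EB.Graph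
import Pool.Agent.H262.EB.RandB
import Pool.Agent.H262.EB.RandA
import Pool.Agent.H262.EB.Parity
import Pool.Agent.H262.EB.Norm
import Pool.Agent.H262.EB.Cover
import Pool.Agent.H262.EB.BBT
import Pool.Agent.H262.EB.Avg
import Pool.Agent.H262.EB.Theta
import Pool.Agent.H262.EB.TrA
import Pool.Agent.H262.EB.TrLift
import Pool.Agent.H262.EB.TrChart
import Pool.Agent.H262.EB.Transport
import Pool.Agent.H262.EB.Machine
import Pool.Agent.H262.EB.CTFinal

set_option autoImplicit false
open Pool Pool.MP_6b7756_an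

namespace Pool.Agent.S04952

/-- The negation of the preceding statement: For every Hausdorff locally compact group, each continuous function that is a pointwise limit of L²-regular-representation positive-definite coefficients is also a uniform-on-compacta limit of such coefficients, i.e. lies in the reduced Fourier–Stieltjes algebra. -/
theorem result :
    ¬ (∀ (G : Type) [Group G] [TopologicalSpace G] [IsTopologicalGroup G]
      [LocallyCompactSpace G] [T2Space G] [MeasurableSpace G] [BorelSpace G],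
      ∀ φ : G → ℂ, Continuous φ →
        φ ∈ closure {ψ : G → ℂ | ∃ ξ : G → ℂ,
              MeasureTheory.MemLp ξ 2 (MeasureTheory.Measure.haar : MeasureTheory.Measure G) ∧
              ∀ x : G, ψ x = ∫ y, ξ y * (starRingEnd ℂ) (ξ (x⁻¹ * y))
                ∂(MeasureTheory.Measure.haar : MeasureTheory.Measure G)} →
        ∀ K : Set G, IsCompact K → ∀ ε : ℝ, 0 < ε →
          ∃ ξ : G → ℂ,
            MeasureTheory.MemLp ξ 2 (MeasureTheory.Measure.haar : MeasureTheory.Measure G) ∧
            ∀ x ∈ K, ‖φ x - ∫ y, ξ y * (starRingEnd ℂ) (ξ (x⁻¹ * y))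
                ∂(MeasureTheory.Measure.haar : MeasureTheory.Measure G)‖ < ε) := by
  have hCT : Pool.Agent.H262.EB.StCT :=
    Pool.Agent.H262.EB.CTFinal.main
      (Pool.Agent.H262.EB.Theta.main Pool.Agent.H262.EB.Lab.main
        (Pool.Agent.H262.EB.Graph.main Pool.Agent.H262.EB.Max.main)
        (Pool.Agent.H262.EB.RandA.main Pool.Agent.H262.EB.RandB.main)
        Pool.Agent.H262.EB.Parity.main
        (Pool.Agent.H262.EB.Cover.main
          (Pool.Agent.H262.EB.Norm.main Pool.Agent.H262.EB.Cheeger.main))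
        Pool.Agent.H262.EB.BBT.main Pool.Agent.H262.EB.Avg.main)
      Pool.Agent.H262.EB.Machine.main
      (Pool.Agent.H262.EB.Transport.main Pool.Agent.H262.EB.TrA.main
        Pool.Agent.H262.EB.TrLift.main Pool.Agent.H262.EB.TrChart.main)
  have hAP : Pool.Agent.H262.EB.StAP :=
    Pool.Agent.H262.EB.APFinal.main Pool.Agent.H262.EB.Slice.main
      (Pool.Agent.H262.EB.HeroCoef.main Pool.Agent.H262.EB.Slice.main)
      (Pool.Agent.H262.EB.AdvCoef.main Pool.Agent.H262.EB.Slice.main)
      Pool.Agent.H262.EB.LR.main Pool.Agent.H262.EB.Lim.main Pool.Agent.H262.EB.Coc.main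
      (Pool.Agent.H262.EB.Hero.main Pool.Agent.H262.EB.Ps.main)
      (Pool.Agent.H262.EB.Tail.main
        (Pool.Agent.H262.EB.Four.main
          (Pool.Agent.H262.EB.Mark.main Pool.Agent.H262.EB.Cheeger.main)
          Pool.Agent.H262.EB.Ps.main))
  obtain ⟨H, S, _, _, _, _, _, ⟨C⟩⟩ := hCT
  exact hAP H S Pool.Agent.H262.EB.DD 4094 C (by norm_num) (by norm_num) (by norm_num)

end Pool.Agent.S04952
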