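import Pool.Statements.S05234
-- import your own Pool.Agent.* helpers here
import Pool.Agent.H261.AS.Main

set_option autoImplicit false
open MeasureTheory
open Pool Pool.MP_82c534_an

namespace Pool.Agent.S05234

/-- The negation of the preceding statement: Every maximal antisymmetry set for H^∞+C in the maximal ideal space of L^∞ is the exact support of a regular Borel probability measure that represents a multiplicative functional on H^∞+C. -/
theorem result :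
    ¬ (∀ [Fact ((0:ℝ) < 1)],
    ∀ A : Set (Lp ℂ ⊤ (volume : Measure UnitAddCircle)),
      A = {f | ∃ h c : Lp ℂ ⊤ (volume : Measure UnitAddCircle),
            (∀ n : ℤ, n < 0 → fourierCoeff (h : UnitAddCircle → ℂ) n = 0) ∧
            (∃ g : C(UnitAddCircle, ℂ), (c : UnitAddCircle → ℂ) =ᵐ[volume] ⇑g) ∧
            f = h + c} →
    ∀ X : Set (Lp ℂ ⊤ (volume : Measure UnitAddCircle) → ℂ),
      X = {φ | (∀ (a : ℂ) (f g : Lp ℂ ⊤ (volume : Measure UnitAddCircle)),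
                  φ (a • f + g) = a * φ f + φ g) ∧
               (∀ f g k : Lp ℂ ⊤ (volume : Measure UnitAddCircle),
                  (k : UnitAddCircle → ℂ) =ᵐ[volume]
                    (fun t => (f : UnitAddCircle → ℂ) t * (g : UnitAddCircle → ℂ) t) →
                  φ k = φ f * φ g) ∧
               (∀ e : Lp ℂ ⊤ (volume : Measure UnitAddCircle),
                  (e : UnitAddCircle → ℂ) =ᵐ[volume] (fun _ => (1:ℂ)) → φ e = 1)} →
    ∀ [MeasurableSpace ↥X] [BorelSpace ↥X],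
    ∀ S : Set ↥X,
      ((∀ f ∈ A, (∀ x ∈ S, (x.1 f).im = 0) → ∀ x ∈ S, ∀ y ∈ S, x.1 f = y.1 f) ∧
       (∀ T : Set ↥X, S ⊆ T →
          (∀ f ∈ A, (∀ x ∈ T, (x.1 f).im = 0) → ∀ x ∈ T, ∀ y ∈ T, x.1 f = y.1 f) →
          T = S)) →
      ∃ μ : Measure ↥X,
        IsProbabilityMeasure μ ∧ μ.Regular ∧
        (∀ f ∈ A, ∀ g ∈ A, ∀ k : Lp ℂ ⊤ (volume : Measure UnitAddCircle),
          (k : UnitAddCircle → ℂ) =ᵐ[volume]
            (fun t => (f : UnitAddCircle → ℂ) t * (g : UnitAddCircle → ℂ) t) →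
          ∫ x, x.1 k ∂μ = (∫ x, x.1 f ∂μ) * (∫ x, x.1 g ∂μ)) ∧
        IsClosed S ∧ μ Sᶜ = 0 ∧
        ∀ U : Set ↥X, IsOpen U → (U ∩ S).Nonempty → μ U ≠ 0) := by
  intro H
  obtain ⟨S, hS, hn⟩ := Pool.Agent.H261.AS.core
  letI m : MeasurableSpace ↥{φ : Pool.Agent.H261.AS.LL → ℂ | Pool.Agent.H261.AS.IsChar φ} :=
    borel _
  haveI b : BorelSpace ↥{φ : Pool.Agent.H261.AS.LL → ℂ | Pool.Agent.H261.AS.IsChar φ} := ⟨rfl⟩
  haveI : Fact ((0:ℝ) < 1) := ⟨one_pos⟩
  obtain ⟨μ, h1, -, -, h2, h3, h4⟩ := H {f | Pool.Agent.H261.AS.InA f} rfl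
    {φ | Pool.Agent.H261.AS.IsChar φ} rfl S hS
  exact hn μ h1 h2 h3 h4

end Pool.Agent.S05234
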