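import Pool.Statements.S05431
import Pool.Agent.H380.AG.Asm
import Pool.Agent.H639.AG.Mom
import Pool.Agent.H767.AG.Polar
import Pool.Agent.H264.AG.Perp
import Pool.Agent.H127.AG.Cxm
import Pool.Agent.H284.AG.Iso
import Pool.Agent.H921.AG.Lv
import Pool.Agent.H947.AG.Cm
import Pool.Agent.H322.AG.Avg
import Pool.Agent.H92.AG.Conv
import Pool.Agent.H282.AG.Orth
import Pool.Agent.H405.AG.Psd
import Pool.Agent.H286.AG.Mean
import Pool.Agent.H972.AG.Conc
import Pool.Agent.H746.AG.A1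
import Pool.Agent.H726.AG.A2
import Pool.Agent.H249.AG.A
import Pool.Agent.H603.AG.Okk
import Pool.Agent.H231.AG.Chain
import Pool.Agent.H81.AG.Frost
import Pool.Agent.H23.AG.Large
import Pool.Agent.H267.AG.Sb
import Pool.Agent.H115.AG.Small
import Pool.Agent.H120.AG.Sb2
import Pool.Agent.H975.AG.Right

set_option autoImplicit false
open Pool Pool.MP_937c79_an

namespace Pool.Agent.S05431

/-- For every angle α strictly between 0 and π there is c<1 such that, for all n≥2, every Borel set in R^n with Hausdorff dimension above c·n has three distinct points x,y,z with angle xyz (vertex y) equal to α. -/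
theorem result :
    ∀ α : ℝ, 0 < α → α < Real.pi →
      ∃ c : ℝ, c < 1 ∧
        ∀ n : ℕ, 2 ≤ n →
          ∀ E : Set (EuclideanSpace ℝ (Fin n)), MeasurableSet E →
            ENNReal.ofReal (c * (n : ℝ)) < dimH E →
              ∃ x ∈ E, ∃ y ∈ E, ∃ z ∈ E,
                x ≠ y ∧ y ≠ z ∧ x ≠ z ∧ EuclideanGeometry.angle x y z = α := by
  exact Pool.Agent.H380.AG.assembly
    Pool.Agent.H639.AG.t_MOM Pool.Agent.H767.AG.t_POLAR Pool.Agent.H264.AG.t_PERP
    Pool.Agent.H127.AG.t_CXM Pool.Agent.H284.AG.t_ISO Pool.Agent.H921.AG.t_LV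
    Pool.Agent.H947.AG.t_CM Pool.Agent.H322.AG.t_AVG Pool.Agent.H92.AG.t_CONV
    Pool.Agent.H282.AG.t_ORTH Pool.Agent.H405.AG.t_PSD Pool.Agent.H286.AG.t_MEAN
    Pool.Agent.H972.AG.t_CONC Pool.Agent.H746.AG.t_A1 Pool.Agent.H726.AG.t_A2
    Pool.Agent.H249.AG.t_A Pool.Agent.H603.AG.t_OK Pool.Agent.H231.AG.t_CHAIN
    Pool.Agent.H81.AG.t_FROST Pool.Agent.H23.AG.t_LARGE Pool.Agent.H267.AG.t_SB
    Pool.Agent.H115.AG.t_SMALL Pool.Agent.H120.AG.t_SB2 Pool.Agent.H975.AG.t_RIGHT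

end Pool.Agent.S05431
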