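import Pool.Statements.S05858
import Pool.Agent.H273.EllOne

set_option autoImplicit false
open Pool Pool.MP_b1f597_an

namespace Pool.Agent.S05858

open Pool.Agent.H273.Moll Pool.Agent.H273.Hat Pool.Agent.H273.Scale Pool.Agent.H273.EllOne

/-- The negation of the preceding statement: The Lipschitz-free space over real ℓ₁, characterised by its universal property for Lipschitz maps vanishing at 0, has a bounded linear projection from its bidual onto its canonical copy, i.e. it is complemented in its bidual. -/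
theorem result :
    ¬ (∃ (X : Type) (_ : NormedAddCommGroup X) (_ : NormedSpace ℝ X) (_ : CompleteSpace X)
      (δ : lp (fun _ : ℕ => ℝ) 1 → X),
      δ 0 = 0 ∧ LipschitzWith 1 δ ∧
      Dense ((Submodule.span ℝ (Set.range δ) : Submodule ℝ X) : Set X) ∧
      (∀ (Y : Type) (_ : NormedAddCommGroup Y) (_ : NormedSpace ℝ Y) (_ : CompleteSpace Y)
        (f : lp (fun _ : ℕ => ℝ) 1 → Y) (K : NNReal),
        LipschitzWith K f → f 0 = 0 →
        ∃ T : X →L[ℝ] Y, ‖T‖ ≤ (K : ℝ) ∧ ∀ m, T (δ m) = f m) ∧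
      ∃ P : ((X →L[ℝ] ℝ) →L[ℝ] ℝ) →L[ℝ] X,
        ∀ x : X, P (ContinuousLinearMap.apply ℝ ℝ x) = x) := by
  rintro ⟨X, _, _, _, δ, _, hlip, hd, huniv, P, hP⟩
  obtain ⟨K, hK0, hK⟩ : ∃ C : ℝ, 0 < C ∧ ∀ y, ‖P y‖ ≤ C * ‖y‖ :=
    @ContinuousLinearMap.bound ℝ ℝ ((X →L[ℝ] ℝ) →L[ℝ] ℝ) X _ _ _ _ _ _ (RingHom.id ℝ) _ P
  obtain ⟨n, hn⟩ := Pool.Agent.H273.Tens.exists_large (3 * K)
  let Ω := Pool.Agent.H273.Tens.Om n
  let J := Pool.Agent.H273.Tens.J n
  let r : J → Ω → ℝ := Pool.Agent.H273.Tens.r n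
  have h1 : ∀ w w' : Ω → ℝ, ‖δ (Lmap w) - δ (Lmap w')‖ ≤ N1 (w - w') := by
    intro w w'
    rw [← dist_eq_norm]
    refine (hlip.dist_le_mul _ _).trans ?_
    rw [dist_eq_norm, ← map_sub, NNReal.coe_one, one_mul]
    exact Lmap_norm _
  obtain ⟨T, hT1, hT2, hT3⟩ := exists_T (g := fun w : Ω → ℝ => δ (Lmap w)) h1 (Rmap r) P hP
    hK0.le hK
  have hu : Univ δ := fun f C hf hf0 => huniv ℝ inferInstance inferInstance inferInstance f C hf hf0
  let D : Data δ K ((1 / 2) ^ n) J Ω :=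
    { hu := hu
      hd := hd
      L := Lmap
      hL := Lmap_norm
      Λ := Lam
      hΛL := Lam_Lmap
      hΛn := Lam_norm
      r := r
      f := Pool.Agent.H273.Tens.f n
      h := Pool.Agent.H273.Tens.h n
      hfr := Pool.Agent.H273.Tens.f_r n
      hhr := Pool.Agent.H273.Tens.h_r n
      hκ := fun a b => (Pool.Agent.H273.Tens.h_abs n a b).le
      hκ0 := by positivity
      hK0 := hK0.le
      T := T
      Tadd := hT1
      Tbd := hT2
      Tstar := hT3 }
  exact D.contra (η := (Fintype.card J : ℝ) - Fintype.card Ω * ((1 / 2) ^ n * (3 * K)))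
    (by linarith) le_rfl

end Pool.Agent.S05858
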