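import Pool.Statements.S06811
import Pool.Agent.H812.Tm.Fin

set_option autoImplicit false
open scoped ContDiff
open Pool Pool.MP_fc8395_an

namespace Pool.Agent.S06811

/-- Some δ>0 works so that for all λ in (0,δ) and irrational α in (0,1), the bounded-orbit set of the continued-fraction trace-map sequence on the cubic surface is a disjoint union of smooth curves lying in leaves of a C^1 foliation of a neighborhood. -/
theorem result :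
    ∃ δ : ℝ, 0 < δ ∧ ∀ c : ℝ, 0 < c → c < δ → ∀ α : ℝ, Irrational α → 0 < α → α < 1 →
      ∃ 𝒞 : Set (Set (ℝ × ℝ × ℝ)), ∃ A : Set (ℝ × ℝ → ℝ × ℝ × ℝ),
        𝒞.PairwiseDisjoint id ∧
        ⋃₀ 𝒞 = {p : ℝ × ℝ × ℝ |
            p.1 ^ 2 + p.2.1 ^ 2 + p.2.2 ^ 2 - 2 * p.1 * p.2.1 * p.2.2 = 1 + c ^ 2 / 4 ∧
            ∀ a : ℕ → ℤ, ∀ q : ℕ → ℝ × ℝ × ℝ,
              (∀ n, a n = ((⌊((fun x : ℝ => Int.fract x⁻¹)^[n] α)⁻¹⌋₊ : ℕ) : ℤ)) →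
              q 0 = p →
              (∀ n, q (n + 1) =
                ((q n).1 * (Polynomial.Chebyshev.U ℝ (a n)).eval (q n).2.1
                    - (q n).2.2 * (Polynomial.Chebyshev.U ℝ (a n - 1)).eval (q n).2.1,
                  (q n).1 * (Polynomial.Chebyshev.U ℝ (a n - 1)).eval (q n).2.1
                    - (q n).2.2 * (Polynomial.Chebyshev.U ℝ (a n - 2)).eval (q n).2.1,
                  (q n).2.1)) →
              ∃ C : ℝ, ∀ n, ‖q n‖ ≤ C} ∧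
        (∀ φ ∈ A, ContDiff ℝ 1 φ ∧ Function.Injective φ ∧
            (∀ z, Function.Injective (fderiv ℝ φ z)) ∧
            ∀ z, (φ z).1 ^ 2 + (φ z).2.1 ^ 2 + (φ z).2.2 ^ 2
                - 2 * (φ z).1 * (φ z).2.1 * (φ z).2.2 = 1 + c ^ 2 / 4) ∧
        (∀ φ ∈ A, ∀ ψ ∈ A, ∀ z w : ℝ × ℝ, φ z = ψ w →
            ∃ ε > 0, ∀ z' w' : ℝ × ℝ, dist z' z < ε → z'.2 = z.2 → ψ w' = φ z' → w'.2 = w.2) ∧
        (⋃₀ 𝒞 ⊆ ⋃ φ ∈ A, Set.range φ) ∧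
        (∀ C ∈ 𝒞, ∃ γ : ℝ → ℝ × ℝ × ℝ, ∃ I : Set ℝ,
            I.OrdConnected ∧ I.Nontrivial ∧ ContDiff ℝ ∞ γ ∧ (∀ t, deriv γ t ≠ 0) ∧
            Set.InjOn γ I ∧ γ '' I = C ∧
            ∀ t ∈ I, ∀ φ ∈ A, ∀ z : ℝ × ℝ, φ z = γ t →
              ∃ ε > 0, ∀ s ∈ I, |s - t| < ε → ∃ z' : ℝ × ℝ, φ z' = γ s ∧ z'.2 = z.2) := by
  open Pool.Agent.H812.Tm in
  exact frozen_of pCoord pLow pEsc pLip pField pLeaf pLeafC pGlue pFol pPart

end Pool.Agent.S06811
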