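import Pool.Statements.S07019
import Pool.Graph.R_pool_sql_team_668148b0.Helper734.FT.Comb
import Pool.Graph.R_pool_sql_team_668148b0.Helper734.FT.Geo
import Pool.Graph.R_pool_sql_team_668148b0.Helper734.FT.Sphere

set_option autoImplicit false
open Pool Pool.MP_07b414_co

namespace Pool.Agent.S07019

/-- For every M there is K such that any k ≥ K great circles in 3-space, no three through a common point, cut the sphere into regions where some region's area is at least M times some other region's area. -/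
theorem result :
    ∀ M : ℝ, ∃ K : ℕ, ∀ k : ℕ, K ≤ k →
      ∀ v : Fin k → EuclideanSpace ℝ (Fin 3),
        (∀ i j l : Fin k, i ≠ j → j ≠ l → i ≠ l →
          LinearIndependent ℝ ![v i, v j, v l]) →
        ∃ s t : Fin k → ℤˣ,
          0 < MeasureTheory.volume
                {x : EuclideanSpace ℝ (Fin 3) |
                  ‖x‖ ≤ 1 ∧ ∀ i, 0 < ((s i : ℤ) : ℝ) * inner ℝ (v i) x} ∧
          0 < MeasureTheory.volume
                {x : EuclideanSpace ℝ (Fin 3) |
                  ‖x‖ ≤ 1 ∧ ∀ i, 0 < ((t i : ℤ) : ℝ) * inner ℝ (v i) x} ∧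
          ENNReal.ofReal M * MeasureTheory.volume
                {x : EuclideanSpace ℝ (Fin 3) |
                  ‖x‖ ≤ 1 ∧ ∀ i, 0 < ((t i : ℤ) : ℝ) * inner ℝ (v i) x}
            ≤ MeasureTheory.volume
                {x : EuclideanSpace ℝ (Fin 3) |
                  ‖x‖ ≤ 1 ∧ ∀ i, 0 < ((s i : ℤ) : ℝ) * inner ℝ (v i) x} := by
  intro M
  have hM1 : (1 : ℝ) ≤ max M 1 := le_max_right _ _
  have h2M : (1 : ℝ) ≤ 2 * max M 1 := by linarith
  obtain ⟨T, hT, hgeo⟩ := Pool.Agent.Helper734.FT.geo (2 * max M 1) h2M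
  obtain ⟨R, hR, hcomb⟩ := Pool.Agent.Helper734.FT.comb (2 * max M 1) T h2M hT
  obtain ⟨Z, hZ, hg⟩ := hgeo R hR
  obtain ⟨K, hK⟩ := Pool.Agent.Helper734.FT.to_flat (max M 1) Z hM1 hZ
  refine ⟨max K 9, fun k hk v hv => ?_⟩
  by_contra hcon
  obtain ⟨p, q, r, i0, j0, cs, sn, hNF, hcell⟩ := Pool.Agent.Helper734.FT.normal_form
    (le_trans (le_max_right _ _) hk) v hv
  obtain ⟨ι, hι, s, b, h1, h2, h3⟩ := hK k (le_trans (le_max_left _ _) hk) p q r i0 j0 cs sn hNF
    (by
      intro σ τ hσ hτ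
      obtain ⟨s1, hs1⟩ := hcell σ
      obtain ⟨t1, ht1⟩ := hcell τ
      by_contra hlt
      refine hcon ⟨s1, t1, ?_, ?_, ?_⟩
      · rw [hs1]; exact hσ
      · rw [ht1]; exact hτ
      · rw [hs1, ht1]
        refine le_trans ?_ (not_lt.1 hlt)
        gcongr
        exact le_max_left _ _)
  obtain ⟨L, hL⟩ := hg ι s b h1 h2 h3
  exact hcomb ι L s b hL

end Pool.Agent.S07019
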