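import Pool.Statements.S07545
import Pool.Agent.H24.LinkIso

set_option autoImplicit false
open Pool Pool.MP_1e9f59_co

namespace Pool.Agent.S07545

/-- Every finite cubic 3-connected planar graph (planar via a genus-0 rotation system) not isomorphic to K4, the cube Q3, or the dual of P4 join K2 has a proper 3-colouring in which every two colour classes induce a forest. -/
theorem result :
    ∀ (V : Type) [Fintype V] (G : SimpleGraph V),
      (∀ v : V, Nat.card (G.neighborSet v) = 3) →
      G.Connected →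
      4 ≤ Fintype.card V →
      (∀ u v : V, (G.induce ({u, v}ᶜ : Set V)).Connected) →
      (∃ k : ℕ, k + Fintype.card V = 2 + Nat.card G.edgeSet ∧
        ∃ (σ φ : Equiv.Perm G.Dart) (face : G.Dart → Fin k),
          (∀ d : G.Dart, (σ d).fst = d.fst) ∧
          (∀ d d' : G.Dart, d.fst = d'.fst → ∃ n : ℕ, (σ ^ n) d = d') ∧
          (∀ d : G.Dart, φ d = σ d.symm) ∧
          (∀ d d' : G.Dart, face d = face d' ↔ ∃ n : ℕ, (φ ^ n) d = d') ∧
          Function.Surjective face) →
      ¬ Nonempty (G ≃g (⊤ : SimpleGraph (Fin 4))) →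
      ¬ Nonempty (G ≃g SimpleGraph.fromRel
          (fun x y : Fin 3 → Bool => ∃ i, x i ≠ y i ∧ ∀ j, j ≠ i → x j = y j)) →
      ¬ Nonempty (G ≃g SimpleGraph.fromRel
          (fun a b : Fin 8 => (a, b) ∈ ({(0, 6), (0, 1), (1, 2), (2, 7), (3, 6), (3, 4),
            (4, 5), (5, 7), (0, 3), (1, 4), (2, 5), (6, 7)} : Finset (Fin 8 × Fin 8)))) →
      ∃ c : G.Coloring (Fin 3),
        ∀ i j : Fin 3, (G.induce {v : V | c v = i ∨ c v = j}).IsAcyclic := by
  intro V _ G h3 hconn h4 h2c hpl n1 n2 n3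
  classical
  obtain ⟨k, hk, σ, φ, face, h1, h2, hφ, hface, hsurj⟩ := hpl
  exact Pool.Agent.H24.graph_main h3 h4 h2c hk h1 h2 hφ hface hsurj n1 n2 n3

end Pool.Agent.S07545
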