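import Pool.Statements.S07649
import Pool.Agent.H133.ZM.Final

/-!
MP_22c8d1_co, frozen statement S07649 (the conjecture of Bialostocki, Caro and Roditty for matchings).
The reduction to n = 3 s - 1 is Pool/Agent/H621/ZM (helper621), the case n = 3 s - 1 is Pool/Agent/H133/ZM.
-/

set_option autoImplicit false
open Pool Pool.MP_22c8d1_co

namespace Pool.Agent.S07649

/-- For all n and s ≥ 1, the max edges of an n-vertex graph 2-edge-colourable with no monochromatic s-edge matching equals the max edges of one Z_s-edge-colourable with no s-edge matching of colour sum 0. -/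
theorem result : ∀ n s : ℕ, 1 ≤ s →
    sSup {k : ℕ | ∃ G : SimpleGraph (Fin n), G.edgeSet.ncard = k ∧
      ∃ c : Sym2 (Fin n) → Bool, ∀ F : Finset (Sym2 (Fin n)),
        (↑F : Set (Sym2 (Fin n))) ⊆ G.edgeSet → F.card = s →
        (∀ e ∈ F, ∀ f ∈ F, e ≠ f → ∀ v ∈ e, v ∉ f) →
        ¬ ∃ b : Bool, ∀ e ∈ F, c e = b}
    =
    sSup {k : ℕ | ∃ G : SimpleGraph (Fin n), G.edgeSet.ncard = k ∧
      ∃ c : Sym2 (Fin n) → ZMod s, ∀ F : Finset (Sym2 (Fin n)),
        (↑F : Set (Sym2 (Fin n))) ⊆ G.edgeSet → F.card = s →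
        (∀ e ∈ F, ∀ f ∈ F, e ≠ f → ∀ v ∈ e, v ∉ f) →
        ∑ e ∈ F, c e ≠ 0} := by
  intro n s hs
  exact Pool.Agent.H133.ZM.Final.all_eq n s hs

end Pool.Agent.S07649
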