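import Pool.Statements.S08130
import Pool.Agent.H659.GirthDiam

set_option autoImplicit false
open Pool Pool.MP_3838e6_co

namespace Pool.Agent.S08130

/-- The negation of the preceding statement: There is a constant C such that every finite connected graph with all vertex degrees at least 3 has girth at most its diameter plus C. -/
theorem result :
    ¬ (∃ C : ℕ, ∀ (V : Type) [Fintype V] (G : SimpleGraph V) [DecidableRel G.Adj],
      G.Connected → (∀ v : V, 3 ≤ G.degree v) → G.girth ≤ G.diam + C) := by
  rintro ⟨C, hC⟩
  obtain ⟨V, hF, G, hD, hconn, hdeg, hg, hd⟩ :=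
    Pool.Agent.H659.GirthDiam.main (C + 1) (by omega)
  have h := @hC V hF G hD hconn hdeg
  omega

end Pool.Agent.S08130
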