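import Pool.Statements.S08369
import Pool.Agent.H576.RD.Asm4
import Pool.Agent.H576.RD.Final

set_option autoImplicit false
open Pool Pool.MP_41c3f3_co

namespace Pool.Agent.S08369

/-- There is c with 0<c<10 such that every (r,R) Delone set in 3-space whose cR-clusters are all pairwise equivalent under isometries mapping center to center has a symmetry group acting transitively on it. -/
theorem result :
    ∃ c : ℝ, 0 < c ∧ c < 10 ∧
      ∀ r R : ℝ, 0 < r → r < R →
        ∀ X : Set (EuclideanSpace ℝ (Fin 3)),
          (∀ z : EuclideanSpace ℝ (Fin 3), (X ∩ Metric.ball z r).Subsingleton) →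
          (∀ z : EuclideanSpace ℝ (Fin 3), (X ∩ Metric.closedBall z R).Nonempty) →
          (∀ x ∈ X, ∀ y ∈ X,
            ∃ g : EuclideanSpace ℝ (Fin 3) ≃ᵢ EuclideanSpace ℝ (Fin 3),
              g x = y ∧
                g '' (X ∩ Metric.closedBall x (c * R)) = X ∩ Metric.closedBall y (c * R)) →
          (∀ x ∈ X, ∀ y ∈ X,
            ∃ g : EuclideanSpace ℝ (Fin 3) ≃ᵢ EuclideanSpace ℝ (Fin 3),
              g '' X = X ∧ g x = y) :=
  Pool.Agent.H576.RD.frozen_of Pool.Agent.H576.RD.all_lemmas

end Pool.Agent.S08369
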