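import Pool.Statements.S08942
-- import your own Pool.Agent.* helpers here
import Pool.Agent.H33.AB.Final

set_option autoImplicit false
open Pool Pool.MP_5ad9df_co

namespace Pool.Agent.S08942

/-- The negation of the preceding statement: For every finite graph G and all a, b: every a-list assignment on G allows choosing b colours per vertex with adjacent vertices disjoint, iff the graph obtained by blowing each vertex into a b-clique (adjacent cliques fully joined) is a-choosable. -/
theorem result :
    ¬ (∀ (V : Type) [Fintype V] (G : SimpleGraph V) (a b : ℕ),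
      (∀ L : V → Finset ℕ, (∀ v, (L v).card = a) →
        ∃ C : V → Finset ℕ, (∀ v, C v ⊆ L v ∧ (C v).card = b) ∧
          ∀ u v, G.Adj u v → Disjoint (C u) (C v)) ↔
      (∀ L : V × Fin b → Finset ℕ, (∀ x, (L x).card = a) →
        ∃ f : V × Fin b → ℕ, (∀ x, f x ∈ L x) ∧
          ∀ x y, (G.Adj x.1 y.1 ∨ (x.1 = y.1 ∧ x.2 ≠ y.2)) → f x ≠ f y)) :=
  Pool.Agent.H33.AB.main

end Pool.Agent.S08942
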