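import Pool.Statements.S09321
import Pool.Agent.H6.PathOddMain

set_option autoImplicit false
open Pool Pool.MP_6b7c5d_co

namespace Pool.Agent.S09321

/-- For every graph on n vertices, there are at most ceil(n/2) paths in the complete graph on those vertices such that each pair of vertices is an edge of the graph exactly when it lies on an odd number of the paths. -/
theorem result :
    ∀ (n : ℕ) (G : SimpleGraph (Fin n)),
      ∃ (k : ℕ) (u v : Fin k → Fin n)
        (P : ∀ i : Fin k, (⊤ : SimpleGraph (Fin n)).Walk (u i) (v i)),
        k ≤ (n + 1) / 2 ∧
        (∀ i : Fin k, (P i).IsPath) ∧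
        ∀ a b : Fin n, a ≠ b →
          (G.Adj a b ↔
            Odd ((Finset.univ.filter (fun i : Fin k => s(a, b) ∈ (P i).edges)).card)) := by
  exact Pool.Agent.H6.PathOdd.main

end Pool.Agent.S09321
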