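import Pool.Statements.S09542
import Pool.Agent.H21.PE.Main

set_option autoImplicit false
open Pool Pool.MP_75b583_co

namespace Pool.Agent.S09542

/-- The negation of the preceding statement: If every depth-r minor of every graph in a finite-graph class has average degree at most c(r+1)^k, then there are d and D so that each graph can be (d+1)-coloured with every monochromatic r-component of weak diameter at most D(r). -/
theorem result :
    ¬ (∀ P : (n : ℕ) → SimpleGraph (Fin n) → Prop,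
      (∃ c k : ℕ, ∀ (n : ℕ) (G : SimpleGraph (Fin n)), P n G →
        ∀ (r m : ℕ) (H : SimpleGraph (Fin m)) (B : Fin m → Set (Fin n)) (ctr : Fin m → Fin n),
          (∀ i j, i ≠ j → Disjoint (B i) (B j)) →
          (∀ i, ctr i ∈ B i) →
          (∀ i, ∀ v ∈ B i, ∃ w : G.Walk (ctr i) v, w.length ≤ r ∧ ∀ x ∈ w.support, x ∈ B i) →
          (∀ i j, H.Adj i j → ∃ x ∈ B i, ∃ y ∈ B j, G.Adj x y) →
          2 * Nat.card H.edgeSet ≤ c * (r + 1) ^ k * m) →
      ∃ d : ℕ, ∃ D : ℕ → ℕ, ∀ (n : ℕ) (G : SimpleGraph (Fin n)), P n G →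
        ∀ r : ℕ, ∃ col : Fin n → Fin (d + 1), ∀ u v : Fin n,
          Relation.ReflTransGen (fun x y => col x = col y ∧ G.edist x y ≤ (r : ℕ∞)) u v →
          G.edist u v ≤ (D r : ℕ∞)) := by
  intro hmain
  -- the class of all graphs satisfying one fixed quadratic bound on the densities of shallow minors
  obtain ⟨d, Dm, hD⟩ := hmain
    (fun n G => ∀ (r m : ℕ) (H : SimpleGraph (Fin m)) (B : Fin m → Set (Fin n)) (ctr : Fin m → Fin n),
          (∀ i j, i ≠ j → Disjoint (B i) (B j)) →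
          (∀ i, ctr i ∈ B i) →
          (∀ i, ∀ v ∈ B i, ∃ w : G.Walk (ctr i) v, w.length ≤ r ∧ ∀ x ∈ w.support, x ∈ B i) →
          (∀ i j, H.Adj i j → ∃ x ∈ B i, ∃ y ∈ B j, G.Adj x y) →
          2 * Nat.card H.edgeSet ≤ 256 * (r + 1) ^ 2 * m)
    ⟨256, 2, fun n G hG => hG⟩
  obtain ⟨r, hr⟩ := Pool.Agent.H21.PE.exists_final (d + 1)
  obtain ⟨N, G, ρ, hWB, hcube⟩ := hr (Dm r)
  have hP : ∀ (r m : ℕ) (H : SimpleGraph (Fin m)) (B : Fin m → Set (Fin N)) (ctr : Fin m → Fin N),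
          (∀ i j, i ≠ j → Disjoint (B i) (B j)) →
          (∀ i, ctr i ∈ B i) →
          (∀ i, ∀ v ∈ B i, ∃ w : G.Walk (ctr i) v, w.length ≤ r ∧ ∀ x ∈ w.support, x ∈ B i) →
          (∀ i j, H.Adj i j → ∃ x ∈ B i, ∃ y ∈ B j, G.Adj x y) →
          2 * Nat.card H.edgeSet ≤ 256 * (r + 1) ^ 2 * m := by
    intro r m H B ctr h1 h2 h3 h4
    have h5 := Pool.Agent.H21.PE.minor_bound G ρ _ hWB r m H B ctr h1 h2 h3 h4
    have h6 : 8 * (4 * r + 1 + 1) ^ 2 ≤ 128 * (r + 1) ^ 2 := by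
      have h7 : (4 * r + 1 + 1) ^ 2 ≤ (4 * (r + 1)) ^ 2 := Nat.pow_le_pow_left (by omega) 2
      rw [mul_pow] at h7
      omega
    calc 2 * Nat.card H.edgeSet ≤ 2 * (8 * (4 * r + 1 + 1) ^ 2 * m) := Nat.mul_le_mul_left _ h5
      _ ≤ 2 * (128 * (r + 1) ^ 2 * m) := Nat.mul_le_mul_left _ (Nat.mul_le_mul_right _ h6)
      _ = 256 * (r + 1) ^ 2 * m := by ring
  obtain ⟨col, hcol⟩ := hD N G hP r
  obtain ⟨u, v, huv, hfar⟩ := Pool.Agent.H21.PE.cube_color hcube col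
  exact absurd (hcol u v huv) (not_le.2 hfar)

end Pool.Agent.S09542
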