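import Pool.Statements.S10533
import Pool.Agent.H122.LT17

set_option autoImplicit false
open Pool Pool.MP_a382a5_co

namespace Pool.Agent.S10533

/-- For every d≥1 and k: if every finite disjoint unit-ball family in dimension d+1 whose (k+1)-subfamilies have line transversals has one, then the same holds in dimension d with k; i.e. the transversal Helly number strictly increases with d. -/
theorem result :
    ∀ d : ℕ, 1 ≤ d → ∀ k : ℕ,
      (∀ S : Finset (EuclideanSpace ℝ (Fin (d + 1))),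
        (∀ x ∈ S, ∀ y ∈ S, x ≠ y → 2 < dist x y) →
        (∀ T ⊆ S, T.card ≤ k + 1 →
          ∃ p v : EuclideanSpace ℝ (Fin (d + 1)), v ≠ 0 ∧
            ∀ c ∈ T, ∃ t : ℝ, dist (p + t • v) c ≤ 1) →
        ∃ p v : EuclideanSpace ℝ (Fin (d + 1)), v ≠ 0 ∧
          ∀ c ∈ S, ∃ t : ℝ, dist (p + t • v) c ≤ 1) →
      (∀ S : Finset (EuclideanSpace ℝ (Fin d)),
        (∀ x ∈ S, ∀ y ∈ S, x ≠ y → 2 < dist x y) →
        (∀ T ⊆ S, T.card ≤ k →
          ∃ p v : EuclideanSpace ℝ (Fin d), v ≠ 0 ∧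
            ∀ c ∈ T, ∃ t : ℝ, dist (p + t • v) c ≤ 1) →
        ∃ p v : EuclideanSpace ℝ (Fin d), v ≠ 0 ∧
          ∀ c ∈ S, ∃ t : ℝ, dist (p + t • v) c ≤ 1) := by
  intro d hd k h
  exact Pool.Agent.H122.LT.strict_growth d k hd h

end Pool.Agent.S10533
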