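import Pool.Statements.S10787
import Pool.Agent.H9.TD.Main

set_option autoImplicit false
open Pool Pool.MP_ae5681_co

namespace Pool.Agent.S10787

/-- There are positive integers a, n such that for every finite tree T with m edges, every finite simple graph that is (a·m^n)-edge-connected and has edge count divisible by m has its edges partitioned into copies of T. -/
theorem result :
    ∃ a n : ℕ, 0 < a ∧ 0 < n ∧
      ∀ (W : Type) [Fintype W] (T : SimpleGraph W), T.IsTree →
      ∀ (V : Type) [Fintype V] (G : SimpleGraph V),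
        (∀ s : Set (Sym2 V), s.ncard < a * T.edgeSet.ncard ^ n →
          (G.deleteEdges s).Connected) →
        T.edgeSet.ncard ∣ G.edgeSet.ncard →
        ∃ (k : ℕ) (H : Fin k → G.Subgraph),
          (∀ i, Nonempty (T ≃g (H i).coe)) ∧
          ∀ e ∈ G.edgeSet, ∃! i, e ∈ (H i).edgeSet := by
  refine ⟨1000000000000, 12, by norm_num, by norm_num, ?_⟩
  intro W _ T hT V _ G hG hdiv
  classical
  set m := T.edgeSet.ncard with hm
  rcases Nat.eq_zero_or_pos m with h0 | hpos
  · -- no edges
    rw [h0, zero_dvd_iff, Set.ncard_eq_zero (Set.toFinite _)] at hdiv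
    refine ⟨0, fun i => i.elim0, fun i => i.elim0, ?_⟩
    intro e he
    rw [hdiv] at he
    exact absurd he (Set.notMem_empty e)
  · obtain ⟨w, par, hpar, hadj⟩ := Pool.Agent.H9.TD.T4.tree_enum T hT m hm.symm
    apply Pool.Agent.H9.TD.subgraphs_of_TDec T m w par hpar hadj
    apply Pool.Agent.H9.TD.dec_of_cuts G m hpos par hpar _ hdiv
    intro U hU hU'
    refine Pool.Agent.H9.TD.cut_of_connected G _ hG U hU ?_
    by_contra hcon
    push Not at hcon
    exact hU' (Finset.eq_univ_of_forall hcon)

end Pool.Agent.S10787
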