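import Pool.Statements.S10988
import Pool.Agent.H80.IRG.Imp

set_option autoImplicit false
open Pool Pool.MP_b725e3_co

namespace Pool.Agent.S10988

/-- The negation of the preceding statement: There is a bound N such that every finite graph with ir not equal to γ on some induced subgraph, but ir = γ on every proper induced subgraph, has at most N vertices. Hence there are only finitely many minimally (ir,γ)-imperfect graphs up to isomorphism. -/
theorem result :
    ¬ (∃ N : ℕ, ∀ n : ℕ, ∀ G : SimpleGraph (Fin n),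
      (¬ ∀ U : Finset (Fin n),
          sInf {k : ℕ | ∃ S : Finset (Fin n), S ⊆ U ∧
              (∀ v ∈ S, ∃ w ∈ U, (w = v ∨ G.Adj v w) ∧
                  ∀ u ∈ S, u ≠ v → ¬ (w = u ∨ G.Adj u w)) ∧
              (∀ x ∈ U, x ∉ S → ¬ ∀ v ∈ insert x S, ∃ w ∈ U, (w = v ∨ G.Adj v w) ∧
                  ∀ u ∈ insert x S, u ≠ v → ¬ (w = u ∨ G.Adj u w)) ∧
              S.card = k}
          = sInf {k : ℕ | ∃ S : Finset (Fin n), S ⊆ U ∧
              (∀ v ∈ U, v ∈ S ∨ ∃ s ∈ S, G.Adj s v) ∧ S.card = k}) ∧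
      (∀ U : Finset (Fin n), U ≠ Finset.univ →
          sInf {k : ℕ | ∃ S : Finset (Fin n), S ⊆ U ∧
              (∀ v ∈ S, ∃ w ∈ U, (w = v ∨ G.Adj v w) ∧
                  ∀ u ∈ S, u ≠ v → ¬ (w = u ∨ G.Adj u w)) ∧
              (∀ x ∈ U, x ∉ S → ¬ ∀ v ∈ insert x S, ∃ w ∈ U, (w = v ∨ G.Adj v w) ∧
                  ∀ u ∈ insert x S, u ≠ v → ¬ (w = u ∨ G.Adj u w)) ∧
              S.card = k}
          = sInf {k : ℕ | ∃ S : Finset (Fin n), S ⊆ U ∧
              (∀ v ∈ U, v ∈ S ∨ ∃ s ∈ S, G.Adj s v) ∧ S.card = k})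
      → n ≤ N) := by
  exact Pool.Agent.H80.IRG.assemble Pool.Agent.H80.IRG.family

end Pool.Agent.S10988
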