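import Pool.Statements.S11207
import Pool.Agent.H805.T5.Final
import Pool.Agent.H805.T5.Top

set_option autoImplicit false
open Pool Pool.MP_c0c4a4_co

namespace Pool.Agent.S11207

/-- For n = 5, 6, 7, in n×n×n tic-tac-toe (first to fill a line wins), the second player has a legal strategy under which the first player never completes a line before the second, i.e. the game is a draw. -/
theorem result :
  ∀ n ∈ ({5, 6, 7} : Finset ℕ),
    ∃ σ : List (Fin 3 → Fin n) → (Fin 3 → Fin n),
      ∀ l : List (Fin 3 → Fin n), l.Nodup →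
        (∀ k : ℕ, Odd k → ∀ c : Fin 3 → Fin n, l[k]? = some c → c = σ (l.take k)) →
        ((Odd l.length → (∃ c : Fin 3 → Fin n, c ∉ l) → σ l ∉ l) ∧
         ((∃ a : Fin 3 → Fin n, ∃ t : Fin 3 → Fin 3, (∃ j, t j ≠ 0) ∧
             ∀ i : Fin n, ∃ m : ℕ, Even m ∧
               l[m]? = some (fun j => if t j = 0 then a j else if t j = 1 then i else Fin.rev i)) →
          (∃ a : Fin 3 → Fin n, ∃ t : Fin 3 → Fin 3, (∃ j, t j ≠ 0) ∧
             ∀ i : Fin n, ∃ m : ℕ, Odd m ∧
               l[m]? = some (fun j => if t j = 0 then a j else if t j = 1 then i else Fin.rev i)))) :=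
  Pool.Agent.H805.T5.s11207 Pool.Agent.H805.T5.cube5

end Pool.Agent.S11207
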