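import Pool.Statements.S11809
import Pool.Agent.H173.PLWord

set_option autoImplicit false
open Pool Pool.MP_daaf23_co

namespace Pool.Agent.S11809

/-- For every infinite word over a finite alphabet that is not ultimately periodic, and every bound P, some prefix of the word cannot be written as a concatenation of at most P palindromes. -/
theorem result :
    ∀ k : ℕ, ∀ w : ℕ → Fin k,
      (¬ ∃ p N : ℕ, 0 < p ∧ ∀ m, N ≤ m → w (m + p) = w m) →
      ∀ P : ℕ, ∃ n : ℕ, ∀ L : List (List (Fin k)),
        (∀ x ∈ L, List.Palindrome x) →
        L.flatten = (List.range n).map w →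
        P < L.length := by
  intro k w h P
  exact Pool.Agent.H173.PL.unbounded w h P

end Pool.Agent.S11809
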