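import Pool.Statements.S12774
import Pool.Graph.R_pool_sql_team_668148b0.Helper531.PP.Main
import Pool.Graph.R_pool_sql_team_668148b0.Helper531.PP.Fin

set_option autoImplicit false
open Pool Pool.MP_11d477_gt

namespace Pool.Agent.S12774

/-- The negation of the preceding statement: Every homogeneous nondegenerate metric continuum of finite covering dimension and trivial shape (Hilbert-cube neighbourhoods contract in larger ones) has covering dimension exactly 1. -/
theorem result :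
    ¬ (∀ (X : Type) [MetricSpace X] [CompactSpace X] [ConnectedSpace X] [Nontrivial X],
    (∀ x y : X, ∃ h : X ≃ₜ X, h x = y) →
    (∃ n : ℕ, ∀ (k : ℕ) (U : Fin k → Set X), (∀ i, IsOpen (U i)) → (⋃ i, U i) = Set.univ →
        ∃ V : Fin k → Set X, (∀ i, IsOpen (V i)) ∧ (∀ i, V i ⊆ U i) ∧ (⋃ i, V i) = Set.univ ∧
          ∀ x : X, Set.ncard {i : Fin k | x ∈ V i} ≤ n + 1) →
    (∃ e : X → (ℕ → unitInterval), Topology.IsEmbedding e ∧
      ∀ U : Set (ℕ → unitInterval), IsOpen U → Set.range e ⊆ U →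
        ∃ V : Set (ℕ → unitInterval), IsOpen V ∧ Set.range e ⊆ V ∧
          ∃ h : V ⊆ U, (ContinuousMap.inclusion h).Nullhomotopic) →
    (∀ (k : ℕ) (U : Fin k → Set X), (∀ i, IsOpen (U i)) → (⋃ i, U i) = Set.univ →
        ∃ V : Fin k → Set X, (∀ i, IsOpen (V i)) ∧ (∀ i, V i ⊆ U i) ∧ (⋃ i, V i) = Set.univ ∧
          ∀ x : X, Set.ncard {i : Fin k | x ∈ V i} ≤ 1 + 1) ∧
    ¬ (∀ (k : ℕ) (U : Fin k → Set X), (∀ i, IsOpen (U i)) → (⋃ i, U i) = Set.univ →
        ∃ V : Fin k → Set X, (∀ i, IsOpen (V i)) ∧ (∀ i, V i ⊆ U i) ∧ (⋃ i, V i) = Set.univ ∧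
          ∀ x : X, Set.ncard {i : Fin k | x ∈ V i} ≤ 0 + 1)) := by
  exact Pool.Agent.Helper531.PP.final Pool.Agent.Helper531.PP.homogeneous_PA

end Pool.Agent.S12774
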