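import Pool.Statements.S12811
import Pool.Agent.H744.VN.Neg2P
import Pool.Agent.H744.VN.PairP
import Pool.Agent.H744.VN.ThreeP
import Pool.Agent.H744.VN.FourP
import Pool.Agent.H744.VN.ReduceP
import Pool.Agent.H744.VN.FinalP
import Pool.Agent.H744.VN.FrozenP
import Pool.Agent.H744.VN.NobadP
import Pool.Agent.H744.VN.CombFin

set_option autoImplicit false
open Matrix
open Pool Pool.MP_16b7e9_gt

namespace Pool.Agent.S12811

/-- For every n ≥ 6, take two positive definite real symmetric n×n matrices A, B. If min over integer x of (x−v)ᵀA(x−v) equals the same for B at every v in {0,½}ⁿ, then B = UᵀAU for some integer U with det ±1. -/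
theorem result :
    ∀ n : ℕ, 6 ≤ n → ∀ A B : Matrix (Fin n) (Fin n) ℝ, A.PosDef → B.PosDef →
      (∀ S : Finset (Fin n),
        (⨅ x : Fin n → ℤ,
          dotProduct (fun i => (x i : ℝ) - (if i ∈ S then (1/2 : ℝ) else 0))
            (A.mulVec (fun i => (x i : ℝ) - (if i ∈ S then (1/2 : ℝ) else 0))))
        = (⨅ x : Fin n → ℤ,
          dotProduct (fun i => (x i : ℝ) - (if i ∈ S then (1/2 : ℝ) else 0))
            (B.mulVec (fun i => (x i : ℝ) - (if i ∈ S then (1/2 : ℝ) else 0))))) →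
      ∃ U : Matrix (Fin n) (Fin n) ℤ, IsUnit U.det ∧
        B = (U.map (Int.cast : ℤ → ℝ))ᵀ * A * U.map (Int.cast : ℤ → ℝ) := by
  intro n _ A B hA hB h
  have nobad := Pool.Agent.H744.VN.NobadP.t_NOBAD Pool.Agent.H744.VN.Neg2P.t_NEG2
    (Pool.Agent.H744.VN.PairP.t_PAIR Pool.Agent.H744.VN.Neg2P.t_NEG2)
    Pool.Agent.H744.VN.ThreeP.t_THREE Pool.Agent.H744.VN.FourP.t_FOUR
    Pool.Agent.H744.VN.t_COMB
  exact Pool.Agent.H744.VN.FrozenP.t_FROZEN (Pool.Agent.H744.VN.ReduceP.t_REDUCE nobad)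
    Pool.Agent.H744.VN.FinalP.t_FINAL n A B hA hB h

end Pool.Agent.S12811
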