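import Pool.Statements.S13141
import Pool.Agent.H797.Conv2
import Pool.Agent.H797.Glue
import Pool.Agent.H797.Joint
import Pool.Agent.H797.Short
import Pool.Agent.H797.Finale

set_option autoImplicit false
open MeasureTheory
open Pool Pool.MP_4c9fe2_gt

namespace Pool.Agent.S13141

/-- For every smooth u0 on the 2-sphere with positive curvature of e^{2u0}ds^2, the flow du/dt = -1 + avg(K)/K has a global smooth solution, and every such solution converges in C-infinity to some w whose metric e^{2w}ds^2 has constant positive curvature. -/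
theorem result :
  ∀ u₀ : EuclideanSpace ℝ (Fin 3) → ℝ,
    ContDiffOn ℝ ((⊤ : ℕ∞) : WithTop ℕ∞)
      (fun x : EuclideanSpace ℝ (Fin 3) => u₀ (‖x‖⁻¹ • x)) {x | x ≠ 0} →
    (∀ p ∈ Metric.sphere (0 : EuclideanSpace ℝ (Fin 3)) 1,
      0 < Real.exp (-2 * u₀ p) * (1 - ∑ i : Fin 3,
        iteratedFDeriv ℝ 2 (fun x : EuclideanSpace ℝ (Fin 3) => u₀ (‖x‖⁻¹ • x)) p
          ![EuclideanSpace.single i (1:ℝ), EuclideanSpace.single i (1:ℝ)])) →
    (∃ U : ℝ → EuclideanSpace ℝ (Fin 3) → ℝ,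
      ContDiffOn ℝ ((⊤ : ℕ∞) : WithTop ℕ∞)
        (fun z : ℝ × EuclideanSpace ℝ (Fin 3) => U z.1 (‖z.2‖⁻¹ • z.2))
        (Set.Ici (0:ℝ) ×ˢ {x : EuclideanSpace ℝ (Fin 3) | x ≠ 0}) ∧
      (∀ p ∈ Metric.sphere (0 : EuclideanSpace ℝ (Fin 3)) 1, U 0 p = u₀ p) ∧
      (∀ t : ℝ, 0 ≤ t → ∀ p ∈ Metric.sphere (0 : EuclideanSpace ℝ (Fin 3)) 1,
        0 < Real.exp (-2 * U t p) * (1 - ∑ i : Fin 3,
          iteratedFDeriv ℝ 2 (fun x : EuclideanSpace ℝ (Fin 3) => U t (‖x‖⁻¹ • x)) p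
            ![EuclideanSpace.single i (1:ℝ), EuclideanSpace.single i (1:ℝ)])) ∧
      (∀ t : ℝ, 0 < t → ∀ p ∈ Metric.sphere (0 : EuclideanSpace ℝ (Fin 3)) 1,
        HasDerivAt (fun s : ℝ => U s p)
          (-1 + ((∫ q, (1 - ∑ i : Fin 3,
                iteratedFDeriv ℝ 2 (fun x : EuclideanSpace ℝ (Fin 3) => U t (‖x‖⁻¹ • x)) q.1
                  ![EuclideanSpace.single i (1:ℝ), EuclideanSpace.single i (1:ℝ)])
                ∂(volume : Measure (EuclideanSpace ℝ (Fin 3))).toSphere) /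
              (∫ q, Real.exp (2 * U t q.1)
                ∂(volume : Measure (EuclideanSpace ℝ (Fin 3))).toSphere)) /
            (Real.exp (-2 * U t p) * (1 - ∑ i : Fin 3,
              iteratedFDeriv ℝ 2 (fun x : EuclideanSpace ℝ (Fin 3) => U t (‖x‖⁻¹ • x)) p
                ![EuclideanSpace.single i (1:ℝ), EuclideanSpace.single i (1:ℝ)])))
          t)) ∧
    (∀ U : ℝ → EuclideanSpace ℝ (Fin 3) → ℝ,
      (ContDiffOn ℝ ((⊤ : ℕ∞) : WithTop ℕ∞)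
        (fun z : ℝ × EuclideanSpace ℝ (Fin 3) => U z.1 (‖z.2‖⁻¹ • z.2))
        (Set.Ici (0:ℝ) ×ˢ {x : EuclideanSpace ℝ (Fin 3) | x ≠ 0}) ∧
      (∀ p ∈ Metric.sphere (0 : EuclideanSpace ℝ (Fin 3)) 1, U 0 p = u₀ p) ∧
      (∀ t : ℝ, 0 ≤ t → ∀ p ∈ Metric.sphere (0 : EuclideanSpace ℝ (Fin 3)) 1,
        0 < Real.exp (-2 * U t p) * (1 - ∑ i : Fin 3,
          iteratedFDeriv ℝ 2 (fun x : EuclideanSpace ℝ (Fin 3) => U t (‖x‖⁻¹ • x)) p
            ![EuclideanSpace.single i (1:ℝ), EuclideanSpace.single i (1:ℝ)])) ∧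
      (∀ t : ℝ, 0 < t → ∀ p ∈ Metric.sphere (0 : EuclideanSpace ℝ (Fin 3)) 1,
        HasDerivAt (fun s : ℝ => U s p)
          (-1 + ((∫ q, (1 - ∑ i : Fin 3,
                iteratedFDeriv ℝ 2 (fun x : EuclideanSpace ℝ (Fin 3) => U t (‖x‖⁻¹ • x)) q.1
                  ![EuclideanSpace.single i (1:ℝ), EuclideanSpace.single i (1:ℝ)])
                ∂(volume : Measure (EuclideanSpace ℝ (Fin 3))).toSphere) /
              (∫ q, Real.exp (2 * U t q.1)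
                ∂(volume : Measure (EuclideanSpace ℝ (Fin 3))).toSphere)) /
            (Real.exp (-2 * U t p) * (1 - ∑ i : Fin 3,
              iteratedFDeriv ℝ 2 (fun x : EuclideanSpace ℝ (Fin 3) => U t (‖x‖⁻¹ • x)) p
                ![EuclideanSpace.single i (1:ℝ), EuclideanSpace.single i (1:ℝ)])))
          t)) →
      ∃ w : EuclideanSpace ℝ (Fin 3) → ℝ,
        ContDiffOn ℝ ((⊤ : ℕ∞) : WithTop ℕ∞)
          (fun x : EuclideanSpace ℝ (Fin 3) => w (‖x‖⁻¹ • x)) {x | x ≠ 0} ∧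
        (∃ c : ℝ, 0 < c ∧ ∀ p ∈ Metric.sphere (0 : EuclideanSpace ℝ (Fin 3)) 1,
          Real.exp (-2 * w p) * (1 - ∑ i : Fin 3,
            iteratedFDeriv ℝ 2 (fun x : EuclideanSpace ℝ (Fin 3) => w (‖x‖⁻¹ • x)) p
              ![EuclideanSpace.single i (1:ℝ), EuclideanSpace.single i (1:ℝ)]) = c) ∧
        ∀ k : ℕ, ∀ ε : ℝ, 0 < ε → ∃ T : ℝ, ∀ t : ℝ, T ≤ t →
          ∀ p ∈ Metric.sphere (0 : EuclideanSpace ℝ (Fin 3)) 1,
            ‖iteratedFDeriv ℝ k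
                (fun x : EuclideanSpace ℝ (Fin 3) => U t (‖x‖⁻¹ • x) - w (‖x‖⁻¹ • x)) p‖ < ε) := by
  exact Pool.Agent.H797.final_main (fun u h => Pool.Agent.H797.gsol_joint u h)
    (fun u0 h => Pool.Agent.H797.global_of_short (fun M hM => Pool.Agent.H797.short M hM) u0 h)
    (fun u h => Pool.Agent.H797.conv_main h)

end Pool.Agent.S13141
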