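import Pool.Statements.S13731
import Pool.Agent.H741.Bing.Plane

set_option autoImplicit false
open Pool Pool.MP_a9a15f_gt

namespace Pool.Agent.S13731

/-- There exist plane sets D and K with the following properties. D is homeomorphic to the closed disk. K is compact, connected and has the fixed-point property. D∩K is homeomorphic to [0,1]. D∪K has a continuous self-map with no fixed point. -/
theorem result :
    ∃ D K : Set (EuclideanSpace ℝ (Fin 2)),
      Nonempty (↥D ≃ₜ ↥(Metric.closedBall (0 : EuclideanSpace ℝ (Fin 2)) 1)) ∧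
      IsCompact K ∧ IsConnected K ∧
      (∀ f : C(↥K, ↥K), ∃ x, f x = x) ∧
      Nonempty (↥(D ∩ K) ≃ₜ ↥(Set.Icc (0 : ℝ) 1)) ∧
      ¬ (∀ f : C(↥(D ∪ K), ↥(D ∪ K)), ∃ x, f x = x) := by
  exact Pool.Agent.H741.Bing.main

end Pool.Agent.S13731
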