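import Pool.Statements.S13835
import Pool.Graph.R_pool_sql_team_seeded_f0cf7b00.H604R2.SW.Final
import Pool.Graph.R_seed8.Results.MP_bc3e0b_gt.HyperbolicHalf

set_option autoImplicit false
open scoped MeasureTheory
open Pool Pool.MP_bc3e0b_gt

namespace Pool.Agent.S13835

/-- For every d ≥ 4: among spherical simplices and among compact hyperbolic simplices (Klein model) circumscribed about a ball of given radius, the regular one has the smallest volume. -/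
theorem result :
  ∀ d : ℕ, 4 ≤ d →
    (∀ (r : ℝ), 0 < r → r < Real.pi / 2 →
      ∀ (c : EuclideanSpace ℝ (Fin (d + 1)))
        (n m : Fin (d + 1) → EuclideanSpace ℝ (Fin (d + 1))),
        ‖c‖ = 1 → (∀ i, ‖n i‖ = 1) → (∀ i, ‖m i‖ = 1) →
        (∀ i, inner ℝ (n i) c = Real.sin r) →
        (∀ i, inner ℝ (m i) c = Real.sin r) →
        LinearIndependent ℝ n → LinearIndependent ℝ m →
        (∀ i j k l, i ≠ j → k ≠ l → inner ℝ (m i) (m j) = inner ℝ (m k) (m l)) →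
        MeasureTheory.Measure.hausdorffMeasure (d : ℝ)
            {x : EuclideanSpace ℝ (Fin (d + 1)) | ‖x‖ = 1 ∧ ∀ i, 0 ≤ inner ℝ (m i) x}
          ≤ MeasureTheory.Measure.hausdorffMeasure (d : ℝ)
            {x : EuclideanSpace ℝ (Fin (d + 1)) | ‖x‖ = 1 ∧ ∀ i, 0 ≤ inner ℝ (n i) x}) ∧
    (∀ (ρ : ℝ), 0 < ρ → ρ < 1 →
      ∀ (a b : Fin (d + 1) → EuclideanSpace ℝ (Fin d)),
        (∀ i, ‖a i‖ = 1) → (∀ i, ‖b i‖ = 1) →
        (∀ i j, i ≠ j → inner ℝ (b i) (b j) = (-1 : ℝ) / (d : ℝ)) →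
        {x : EuclideanSpace ℝ (Fin d) | ∀ i, inner ℝ (a i) x ≤ ρ} ⊆ Metric.ball 0 1 →
        {x : EuclideanSpace ℝ (Fin d) | ∀ i, inner ℝ (b i) x ≤ ρ} ⊆ Metric.ball 0 1 →
        (∫⁻ x in {x : EuclideanSpace ℝ (Fin d) | ∀ i, inner ℝ (b i) x ≤ ρ},
            ENNReal.ofReal ((1 - ‖x‖ ^ 2) ^ (-(((d : ℝ) + 1) / 2))))
          ≤ ∫⁻ x in {x : EuclideanSpace ℝ (Fin d) | ∀ i, inner ℝ (a i) x ≤ ρ},
            ENNReal.ofReal ((1 - ‖x‖ ^ 2) ^ (-(((d : ℝ) + 1) / 2)))) := by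
  intro d hd
  refine ⟨Pool.Agent.H604R2.SW.f_sph d hd, ?_⟩
  intro ρ hρ _ a b ha hb hreg hsa _
  exact (Pool.Agent.Results.MP_bc3e0b_gt.HyperbolicHalf.result d (by omega) ρ hρ a b ha hb hreg hsa).2

end Pool.Agent.S13835
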