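import Pool.Statements.S14739
import Pool.Agent.H668.Low.Final

set_option autoImplicit false
open Pool Pool.MP_599875_lc

namespace Pool.Agent.S14739

/-- For every oracle X: if every computable structure on ℕ that is X-computably categorical is computably categorical, then any two computable structures with an X-computable isomorphism also have a computable isomorphism. -/
theorem result :
    ∀ X : ℕ → ℕ,
      (∀ D : ℕ → List ℕ → Bool, Computable₂ D →
        (∀ E : ℕ → List ℕ → Bool, Computable₂ E →
          (∃ f : ℕ → ℕ, Function.Bijective f ∧ ∀ i xs, D i xs = E i (xs.map f)) →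
          ∃ f : ℕ → ℕ, Function.Bijective f ∧ (∀ i xs, D i xs = E i (xs.map f)) ∧
            TuringReducible (PFun.lift f) (PFun.lift X)) →
        (∀ E : ℕ → List ℕ → Bool, Computable₂ E →
          (∃ f : ℕ → ℕ, Function.Bijective f ∧ ∀ i xs, D i xs = E i (xs.map f)) →
          ∃ f : ℕ → ℕ, Function.Bijective f ∧ (∀ i xs, D i xs = E i (xs.map f)) ∧
            Computable f)) →
      (∀ D E : ℕ → List ℕ → Bool, Computable₂ D → Computable₂ E →
        (∃ f : ℕ → ℕ, Function.Bijective f ∧ (∀ i xs, D i xs = E i (xs.map f)) ∧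
            TuringReducible (PFun.lift f) (PFun.lift X)) →
        ∃ f : ℕ → ℕ, Function.Bijective f ∧ (∀ i xs, D i xs = E i (xs.map f)) ∧
            Computable f) := by
  intro X hX D E hD hE hDE
  refine Pool.Agent.H668.Low.main X ?_ D E hD hE ?_
  · intro D' hD' hcat E' hE' hiso
    refine hX D' hD' ?_ E' hE' hiso
    intro E'' hE'' h
    obtain ⟨f, h1, h2, h3⟩ := hcat E'' hE'' h
    exact ⟨f, h1, h2, Pool.Agent.Helper743.TR_iff.1 h3⟩
  · obtain ⟨f, h1, h2, h3⟩ := hDE
    exact ⟨f, h1, h2, Pool.Agent.Helper743.TR_iff.2 h3⟩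

end Pool.Agent.S14739
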