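import Pool.Statements.S14772
import Pool.Agent.H721.Main

set_option autoImplicit false
open Pool Pool.MP_5f7953_lc

namespace Pool.Agent.S14772

/-- The negation of the preceding statement: There is an algorithm that, given a word B, decides whether in every group every word lies in the smallest word set containing the variables and B, closed under substitution and under replacement by words identically equal on that group. -/
theorem result :
    ¬ (ComputablePred (fun w : List (ℕ × Bool) =>
    ∀ (G : Type) [Group G], ∀ A : FreeGroup ℕ,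
      ∀ S : Set (FreeGroup ℕ),
        (∀ i : ℕ, FreeGroup.of i ∈ S) →
        FreeGroup.mk w ∈ S →
        (∀ C ∈ S, ∀ σ : ℕ → FreeGroup ℕ, (∀ i, σ i ∈ S) → FreeGroup.lift σ C ∈ S) →
        (∀ C ∈ S, ∀ C' : FreeGroup ℕ,
            (∀ f : ℕ → G, FreeGroup.lift f C = FreeGroup.lift f C') → C' ∈ S) →
        A ∈ S)) := by
  intro hP
  refine Pool.Agent.H721.Rel.main_insep _ hP ?_ ?_
  · intro w hw G _ A S h1 h2 h3 _
    exact hw S ⟨h1, h3⟩ h2 A
  · intro w hw s α m0 M hpre
    refine Pool.Agent.H721.Rel.not_pre (α := α) (m0 := m0) (M := M) ?_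
    refine hw (Pool.Agent.H721.Rel.GG α m0 M)
      (Pool.Agent.H721.Rel.X 0 * (Pool.Agent.H721.Rel.X 1)⁻¹)
      {C | Pool.Agent.H721.Rel.Pre α m0 M C} ?_ hpre ?_ ?_
    · intro i f hf
      have := Pool.Agent.H721.Rel.lift_X f i
      unfold Pool.Agent.H721.Rel.X at this
      rw [this]
      exact hf i
    · intro C hC σ hσ f hf
      have e : FreeGroup.lift f (FreeGroup.lift σ C) =
          FreeGroup.lift (fun i => FreeGroup.lift f (σ i)) C := by
        have h : (FreeGroup.lift f).comp (FreeGroup.lift σ) =
            FreeGroup.lift (fun i => FreeGroup.lift f (σ i)) := by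
          apply FreeGroup.ext_hom
          intro i
          simp
        exact DFunLike.congr_fun h C
      rw [e]
      exact hC _ (fun i => hσ i f hf)
    · intro C hC C' hCC f hf
      rw [← hCC f]
      exact hC f hf

end Pool.Agent.S14772
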