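import Pool.Statements.S14809
import Pool.Agent.H656.AmenOrd

set_option autoImplicit false
open Pool Pool.MP_650f93_lc

namespace Pool.Agent.S14809

/-- For any choice of the iterated Fréchet filters Fr_α and any countable α ≥ 1, if an increasing sequence of countable Borel equivalence relations on a standard Borel space are all Fr_α-amenable, then their union is Fr_α-amenable. -/
theorem result :
  ∀ Fr : Ordinal.{0} → Filter ℕ,
    Fr 1 = Filter.cofinite →
    (∀ β : Ordinal.{0}, 1 ≤ β → β.card ≤ Cardinal.aleph0 →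
      ∀ A : Set ℕ, A ∈ Fr (β + 1) ↔
        {m : ℕ | {n : ℕ | Nat.pair m n ∈ A} ∈ Fr β} ∈ Filter.cofinite) →
    (∀ l : Ordinal.{0}, Order.IsSuccLimit l → l.card ≤ Cardinal.aleph0 →
      ∃ s : ℕ → Ordinal.{0}, StrictMono s ∧ (∀ k, 1 ≤ s k) ∧ (⨆ k, s k) = l ∧
        ∀ A : Set ℕ, A ∈ Fr l ↔
          {m : ℕ | {n : ℕ | Nat.pair m n ∈ A} ∈ Fr (s m)} ∈ Filter.cofinite) →
    ∀ α : Ordinal.{0}, 1 ≤ α → α.card ≤ Cardinal.aleph0 →
    ∀ (X : Type) [MeasurableSpace X] [StandardBorelSpace X] (E : ℕ → X → X → Prop),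
      (∀ i, Equivalence (E i)) →
      (∀ i, MeasurableSet {p : X × X | E i p.1 p.2}) →
      (∀ i x, Set.Countable {y : X | E i x y}) →
      (∀ i x y, E i x y → E (i + 1) x y) →
      (∀ i, ∃ f : ℕ → X × X → ℝ, (∀ n, Measurable (f n)) ∧ (∀ n p, 0 ≤ f n p) ∧
        (∀ n x, HasSum (fun y : {y : X // E i x y} => f n (x, y.1)) 1) ∧
        (∀ x y, E i x y → Filter.Tendsto
          (fun n => ∑' z : {z : X // E i x z}, |f n (x, z.1) - f n (y, z.1)|)
          (Fr α) (nhds 0))) →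
      ∃ f : ℕ → X × X → ℝ, (∀ n, Measurable (f n)) ∧ (∀ n p, 0 ≤ f n p) ∧
        (∀ n x, HasSum (fun y : {y : X // ∃ i, E i x y} => f n (x, y.1)) 1) ∧
        (∀ x y, (∃ i, E i x y) → Filter.Tendsto
          (fun n => ∑' z : {z : X // ∃ i, E i x z}, |f n (x, z.1) - f n (y, z.1)|)
          (Fr α) (nhds 0)) := by
  intro Fr h1 h2 h3 α hα hα' X _ _ E hE hm hc hinc h
  have hfam : Pool.Agent.H656.Amen.IsFrechetFamily Nat.pair Fr := ⟨h1, h2, h3⟩
  have hpair : ∀ m, Function.Injective (Nat.pair m) := by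
    intro m a b hab
    exact (Nat.pair_eq_pair.1 hab).2
  have hC : ∀ i, Pool.Agent.H656.Amen.CBER (E i) := fun i => ⟨hE i, hm i, hc i⟩
  have hA : ∀ i, Pool.Agent.H656.Amen.FAmenable (E i) Filter.cofinite := fun i =>
    Pool.Agent.H656.Amen.FAmenable.of_improves (hC i) (hfam.improves (E i) (hC i) α hα hα') (h i)
  have hU := Pool.Agent.H656.Amen.FAmenable.union E hC hinc hA
  exact Pool.Agent.H656.Amen.FAmenable.mono (hfam.le_cofinite hpair α hα hα') hU

end Pool.Agent.S14809
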