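import Pool.Statements.S15099
import Pool.Agent.H655.MC.Top
-- import your own Pool.Agent.* helpers here

set_option autoImplicit false
open Pool Pool.MP_996a67_lc

namespace Pool.Agent.S15099

/-- There is a Borel map from metric codes on ℕ to graphs on ℕ such that, for codes whose completions are 3-manifolds without boundary, the outputs are simple graphs, isomorphic exactly when the two completions are homeomorphic. -/
theorem result :
    ∃ f : (ℕ → ℕ → ℝ) → (ℕ → ℕ → Bool), Measurable f ∧
      ∀ (X Y : Type) [MetricSpace X] [CompleteSpace X] [MetricSpace Y] [CompleteSpace Y]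
        [ChartedSpace (EuclideanSpace ℝ (Fin 3)) X] [ChartedSpace (EuclideanSpace ℝ (Fin 3)) Y]
        (η η' : ℕ → ℕ → ℝ) (e : ℕ → X) (e' : ℕ → Y),
        Function.Injective e → Function.Injective e' →
        DenseRange e → DenseRange e' →
        (∀ i j, dist (e i) (e j) = η i j) →
        (∀ i j, dist (e' i) (e' j) = η' i j) →
        ((∀ i j, f η i j = f η j i) ∧ (∀ i, f η i i = false) ∧
          (Nonempty (X ≃ₜ Y) ↔
            ∃ σ : Equiv.Perm ℕ, ∀ i j, f η (σ i) (σ j) = f η' i j)) := by
  classical
  obtain ⟨G, hG, hs, hi, hc⟩ := Pool.Agent.H655.MC.metric_graph (EuclideanSpace ℝ (Fin 3))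
  refine ⟨fun η i j => decide (G η i j), ?_, ?_⟩
  · refine measurable_pi_iff.2 fun i => measurable_pi_iff.2 fun j => ?_
    refine measurable_to_bool ?_
    have h1 : (fun η : ℕ → ℕ → ℝ => decide (G η i j)) ⁻¹' {true} = {η | G η i j} := by
      ext η
      simp
    rw [h1]
    exact measurableSet_setOfPred.2 (hG i j)
  · intro X Y _ _ _ _ _ _ η η' e e' _ _ hd hd' hη hη'
    refine ⟨fun i j => ?_, fun i => ?_, ?_⟩
    · exact decide_eq_decide.2 ⟨hs η i j, hs η j i⟩
    · exact decide_eq_false (hi η i)
    · rw [hc X Y e e' η η' ⟨hd, hη⟩ ⟨hd', hη'⟩]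
      refine exists_congr fun σ => forall_congr' fun i => forall_congr' fun j => ?_
      exact decide_eq_decide.symm

end Pool.Agent.S15099
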