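import Pool.Statements.S15411
import Pool.Agent.H670.OA.Fin

set_option autoImplicit false
open Pool Pool.MP_d483bb_lc

namespace Pool.Agent.S15411

/-- Every computable torsion-free abelian group of infinite rank has a computable copy with a computable order, and with an order below some degree X such that no order on that copy has exactly the Turing degree of X. -/
theorem result :
    ∀ (H : Type) [AddCommGroup H],
      (∀ (n : ℕ) (x : H), n ≠ 0 → n • x = 0 → x = 0) →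
      Cardinal.aleph0 ≤ Module.rank ℤ H →
      (∃ ν : ℕ ≃ H, Computable₂ (fun a b : ℕ => ν.symm (ν a + ν b))) →
      ∃ μ : ℕ ≃ H, Computable₂ (fun a b : ℕ => μ.symm (μ a + μ b)) ∧
        (∃ P : Set H,
          (∀ a ∈ P, ∀ b ∈ P, a + b ∈ P) ∧ (∀ a : H, a ∈ P → -a ∈ P → a = 0) ∧
            (∀ a : H, a ∈ P ∨ -a ∈ P) ∧
            Computable (Set.indicator (μ ⁻¹' P) (fun _ => (1 : ℕ)) : ℕ → ℕ)) ∧
        ∃ P : Set H,
          (∀ a ∈ P, ∀ b ∈ P, a + b ∈ P) ∧ (∀ a : H, a ∈ P → -a ∈ P → a = 0) ∧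
            (∀ a : H, a ∈ P ∨ -a ∈ P) ∧
            ∃ X : ℕ → ℕ,
              TuringReducible
                ((Set.indicator (μ ⁻¹' P) (fun _ => (1 : ℕ)) : ℕ → ℕ) : ℕ →. ℕ)
                ((X : ℕ → ℕ) : ℕ →. ℕ) ∧
              ∀ Q : Set H,
                (∀ a ∈ Q, ∀ b ∈ Q, a + b ∈ Q) →
                (∀ a : H, a ∈ Q → -a ∈ Q → a = 0) →
                (∀ a : H, a ∈ Q ∨ -a ∈ Q) →
                ¬ (TuringReducible
                      ((Set.indicator (μ ⁻¹' Q) (fun _ => (1 : ℕ)) : ℕ → ℕ) : ℕ →. ℕ)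
                      ((X : ℕ → ℕ) : ℕ →. ℕ) ∧
                    TuringReducible ((X : ℕ → ℕ) : ℕ →. ℕ)
                      ((Set.indicator (μ ⁻¹' Q) (fun _ => (1 : ℕ)) : ℕ → ℕ) : ℕ →. ℕ)) := by
  intro H _ htf hrk hc
  obtain ⟨μ, hadd, P, hP, hPc, honly⟩ := Pool.Agent.H670.OA.main H htf hrk hc
  obtain ⟨X, hX, hXQ⟩ := Pool.Agent.H670.OA.exists_X μ P hP honly
  have hneg : Computable (fun a : ℕ => μ.symm (- μ a)) := Pool.Agent.H670.OA.c_hneg μ hadd
  refine ⟨μ, hadd, ⟨P, hP.1, hP.2.1, hP.2.2, hPc⟩, P, hP.1, hP.2.1, hP.2.2, X, ?_, ?_⟩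
  · exact Partrec.turingReducible hPc
  · rintro Q h1 h2 h3 ⟨hQX, hXQ'⟩
    have hQc : Computable (Set.indicator (μ ⁻¹' Q) (fun _ => (1 : ℕ)) : ℕ → ℕ) := by
      rcases hXQ Q ⟨h1, h2, h3⟩ hQX with h | h
      · have : Q = P := Set.ext h
        rw [this]; exact hPc
      · refine (hPc.comp hneg).of_eq fun i => ?_
        have h4 : (μ.symm (- μ i) ∈ μ ⁻¹' P) ↔ i ∈ μ ⁻¹' Q := by
          rw [Set.mem_preimage, Set.mem_preimage, Equiv.apply_symm_apply]
          exact (h (μ i)).symm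
        by_cases h5 : i ∈ μ ⁻¹' Q
        · rw [Set.indicator_of_mem h5, Set.indicator_of_mem (h4.2 h5)]
        · rw [Set.indicator_of_notMem h5, Set.indicator_of_notMem (fun h6 => h5 (h4.1 h6))]
    apply hX
    refine RecursiveIn.partrec_of_oracle (fun g hg => ?_) hXQ'
    rw [Set.mem_singleton_iff.1 hg]
    exact hQc

end Pool.Agent.S15411
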