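import Pool.Statements.S15476
import Pool.Agent.H646.CR.Main

set_option autoImplicit false
open Pool Pool.MP_dce269_lc

namespace Pool.Agent.S15476

/-- The negation of the preceding statement: Every aperiodic universal countable Borel equivalence relation on a standard Borel space is Borel isomorphic to the orbit relation of a continuous action of a countable group on a compact metrizable space. -/
theorem result :
    ¬ (∀ (X : Type) [MeasurableSpace X] [StandardBorelSpace X] (E : X → X → Prop),
    Equivalence E →
    MeasurableSet {p : X × X | E p.1 p.2} →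
    (∀ x : X, {y : X | E x y}.Countable) →
    (∀ x : X, {y : X | E x y}.Infinite) →
    (∀ (Y : Type) [MeasurableSpace Y] [StandardBorelSpace Y] (F : Y → Y → Prop),
      Equivalence F →
      MeasurableSet {p : Y × Y | F p.1 p.2} →
      (∀ y : Y, {y' : Y | F y y'}.Countable) →
      ∃ f : Y → X, Measurable f ∧ ∀ y y' : Y, (F y y' ↔ E (f y) (f y'))) →
    ∃ (Γ : Type) (_ : Group Γ) (_ : Countable Γ)
      (Z : Type) (_ : TopologicalSpace Z) (_ : MeasurableSpace Z) (_ : BorelSpace Z)
      (_ : CompactSpace Z) (_ : TopologicalSpace.MetrizableSpace Z) (_ : MulAction Γ Z),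
      (∀ g : Γ, Continuous (fun z : Z => g • z)) ∧
      ∃ φ : X ≃ᵐ Z, ∀ x y : X, (E x y ↔ ∃ g : Γ, g • φ x = φ y)) := by
  exact Pool.Agent.H646.CR.not_frozen2

end Pool.Agent.S15476
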