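import Pool.Statements.S15546
import Pool.Agent.H724.DL.Asm
import Pool.Agent.H724.DL.Mch
import Pool.Agent.H724.DL.P.A1
import Pool.Agent.H724.DL.P.A2
import Pool.Agent.H724.DL.P.A3
import Pool.Agent.H724.DL.P.B
import Pool.Agent.H724.DL.P.C
import Pool.Agent.H724.DL.P.E1a
import Pool.Agent.H724.DL.P.E1b
import Pool.Agent.H724.DL.P.E1c
import Pool.Agent.H724.DL.P.E2
import Pool.Agent.H724.DL.P.F0PER
import Pool.Agent.H724.DL.P.SEG
import Pool.Agent.H724.DL.P.LET
import Pool.Agent.H724.DL.P.LOCK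
import Pool.Agent.H724.DL.P.PATPD
import Pool.Agent.H724.DL.P.STEP1
import Pool.Agent.H724.DL.P.STEP
import Pool.Agent.H724.DL.P.COL
import Pool.Agent.H724.DL.P.ROW
import Pool.Agent.H724.DL.P.TIL
import Pool.Agent.H724.DL.P.CAN
import Pool.Agent.H724.DL.P.INV1
import Pool.Agent.H724.DL.P.INV2a
import Pool.Agent.H724.DL.P.INV2b
import Pool.Agent.H724.DL.P.INV2c
import Pool.Agent.H724.DL.P.INV2d
import Pool.Agent.H724.DL.P.INV2e
import Pool.Agent.H724.DL.P.NF
import Pool.Agent.H724.DL.P.M0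
import Pool.Agent.H724.DL.P.M1
import Pool.Agent.H724.DL.P.M2
import Pool.Agent.H724.DL.P.K1
import Pool.Agent.H724.DL.P.K2

set_option autoImplicit false
open Pool Pool.MP_e695f0_lc

namespace Pool.Agent.S15546

/-- The negation of the preceding statement: For every finite alphabet, the set of (codes of) finite automata whose recognized language lies in a finite family of languages, each of whose concatenation-splits and shuffle-splits are finite unions of products of family members, is computable. -/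
theorem result :
    ¬ (∀ k : ℕ, ComputablePred (fun c : List (List ℕ) × List ℕ =>
      ∃ S : Set (Set (List (Fin k))), S.Finite ∧
        {w : List (Fin k) |
            w.foldl (fun q a => (c.1.getD q []).getD (a : ℕ) 0) 0 ∈ c.2} ∈ S ∧
        ∀ L ∈ S,
          (∃ P : Set (Set (List (Fin k)) × Set (List (Fin k))), P ⊆ S ×ˢ S ∧
            {p : List (Fin k) × List (Fin k) | p.1 ++ p.2 ∈ L} =
              ⋃ q ∈ P, q.1 ×ˢ q.2) ∧
          (∃ P : Set (Set (List (Fin k)) × Set (List (Fin k))), P ⊆ S ×ˢ S ∧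
            {p : List (Fin k) × List (Fin k) | ∃ w ∈ L, ∃ l : List (Fin k × Bool),
                l.map Prod.fst = w ∧
                (l.filter (fun x => x.2)).map Prod.fst = p.1 ∧
                (l.filter (fun x => !x.2)).map Prod.fst = p.2} =
              ⋃ q ∈ P, q.1 ×ˢ q.2))) := by
  have can_ := Pool.Agent.H729.DL.can_
  have col := Pool.Agent.H118.DL.col
  have lock := Pool.Agent.H390.DL.lock Pool.Agent.H127.DLSEG.seg Pool.Agent.H400.DLLET.let_
  have step := Pool.Agent.H177.DL.step Pool.Agent.H724.DL.f0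
    (Pool.Agent.H980.DLstep.step1 lock Pool.Agent.H441.DL.pat)
  have row := Pool.Agent.H796.DLRow.row lock (Pool.Agent.H441.DL.pd lock) col
  have m0 := Pool.Agent.H672.DL.m0
  exact H724.DL.final
    (H724.DL.a_of Pool.Agent.H415.DLA1.a1 Pool.Agent.H264.DLA2.a2 Pool.Agent.H747.DLA3.a3)
    Pool.Agent.H658.DLB.b Pool.Agent.H722.DL.c
    (H724.DL.e1_of Pool.Agent.H404.DLE.e1a Pool.Agent.H94.DL.e1b Pool.Agent.H52.DL.e1c)
    Pool.Agent.H106.DLE2.e2 step Pool.Agent.H724.DL.per (Pool.Agent.H155.DLT.til step row)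
    (Pool.Agent.H921.DLNF.nf (Pool.Agent.H724.DLINV1.inv1 can_)
      (H724.DL.inv2_of (Pool.Agent.H553.DL.inv2a can_) (Pool.Agent.H603.DLI.inv2b can_)
        (Pool.Agent.H980.DLinv.inv2c can_ col) (Pool.Agent.H264.DLInv2d.inv2d can_)
        (Pool.Agent.H190.DL.inv2e can_ col)))
    (H724.DL.s_m (Pool.Agent.H872.DLM1.m1 m0) (Pool.Agent.H195.DLM2.m2 m0))
    (H724.DL.k_of Pool.Agent.H722.DL.k1 Pool.Agent.H323.DLK2.k2)

end Pool.Agent.S15546
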