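import Pool.Statements.S15662
import Pool.Agent.H646.CR.Main

set_option autoImplicit false
open Pool Pool.MP_ff62c8_lc

namespace Pool.Agent.S15662

/-- The negation of the preceding statement: Every nonsmooth aperiodic countable Borel equivalence relation on an uncountable standard Borel space is Borel isomorphic to the orbit relation of a continuous action of a countable group on a compact Polish space. -/
theorem result :
    ¬ (∀ (X : Type) [MeasurableSpace X] [StandardBorelSpace X], Uncountable X →
    ∀ (E : X → X → Prop), Equivalence E →
      MeasurableSet {p : X × X | E p.1 p.2} →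
      (∀ x : X, {y : X | E x y}.Countable) →
      (∀ x : X, {y : X | E x y}.Infinite) →
      (¬ ∃ f : X → ℝ, Measurable f ∧ ∀ x y : X, E x y ↔ f x = f y) →
      ∃ (Γ : Type) (_ : Group Γ) (_ : Countable Γ)
        (K : Type) (_ : TopologicalSpace K) (_ : CompactSpace K) (_ : PolishSpace K)
        (_ : MulAction Γ K) (_ : ContinuousConstSMul Γ K)
        (_ : MeasurableSpace K) (_ : BorelSpace K) (f : X ≃ᵐ K),
        ∀ x y : X, E x y ↔ ∃ g : Γ, g • f x = f y) := by
  exact Pool.Agent.H646.CR.not_frozen1

end Pool.Agent.S15662
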