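import Pool.Statements.S16339
import Pool.Agent.H425.FinB

set_option autoImplicit false
open Pool Pool.MP_2729b9_nt

namespace Pool.Agent.S16339

/-- For all n≥1, d≥2, ε>0, for all large primes p not dividing d and each integer k≤(d−1)^n, the infimum over degree-d f with smooth leading form of NP(f)(k), from its exponential-sum L-function, is within ε of HP(k). -/
theorem result :
  ∀ n d : ℕ, 1 ≤ n → 2 ≤ d → ∀ ε : ℝ, 0 < ε → ∃ P : ℕ,
   ∀ (p : ℕ+) [Fact (Nat.Prime (p : ℕ))], P < (p : ℕ) → ¬ ((p : ℕ) ∣ d) →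
   ∀ ζ : CyclotomicField p ℚ, IsPrimitiveRoot ζ (p : ℕ) →
   ∀ k : ℕ, k ≤ (d - 1) ^ n →
   ∀ T : Finset (Fin n → Fin (d - 1)), T.card = k →
    (∀ T' : Finset (Fin n → Fin (d - 1)), T'.card = k →
       ∑ u ∈ T, ((∑ i, ((u i : ℕ) + 1) : ℕ) : ℝ) / (d : ℝ) ≤
         ∑ u ∈ T', ((∑ i, ((u i : ℕ) + 1) : ℕ) : ℝ) / (d : ℝ)) →
    (∀ (m : ℕ) (f : MvPolynomial (Fin n) (AlgebraicClosure (ZMod (p : ℕ)))),
       1 ≤ m → (∀ s, MvPolynomial.coeff s f ^ ((p : ℕ) ^ m) = MvPolynomial.coeff s f) →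
       f.totalDegree = d →
       (∀ x : Fin n → AlgebraicClosure (ZMod (p : ℕ)),
          (∀ i, x i * MvPolynomial.eval x
              (MvPolynomial.pderiv i (MvPolynomial.homogeneousComponent d f)) = 0) → x = 0) →
       ∀ c : ℕ → CyclotomicField p ℚ, c 0 = 1 →
       (∀ r : ℕ, 1 ≤ r → (r : CyclotomicField p ℚ) * c r =
           (-1) ^ (n - 1) * ∑ j ∈ Finset.Icc 1 r,
             (∑ a : ZMod (p : ℕ), ζ ^ a.val *
               ((Nat.card {x : Fin n → AlgebraicClosure (ZMod (p : ℕ)) //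
                  (∀ i, x i ^ ((p : ℕ) ^ (m * j)) = x i) ∧
                  ∑ t ∈ Finset.range (m * j), (MvPolynomial.eval x f) ^ ((p : ℕ) ^ t) =
                    algebraMap (ZMod (p : ℕ)) (AlgebraicClosure (ZMod (p : ℕ))) a} : ℕ) :
                  CyclotomicField p ℚ)) * c (r - j)) →
       ∀ i j : ℕ, i ≤ k → k ≤ j → j ≤ (d - 1) ^ n → c i ≠ 0 → c j ≠ 0 →
         (((j : ℝ) - i) * (∑ u ∈ T, ((∑ i, ((u i : ℕ) + 1) : ℕ) : ℝ) / (d : ℝ) - ε) <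
            ((j : ℝ) - k) * ((padicValRat (p : ℕ) (Algebra.norm ℚ (c i)) : ℝ) / (((p : ℝ) - 1) * m))
            + ((k : ℝ) - i) * ((padicValRat (p : ℕ) (Algebra.norm ℚ (c j)) : ℝ) / (((p : ℝ) - 1) * m))
          ∨ (i = j ∧ ∑ u ∈ T, ((∑ i, ((u i : ℕ) + 1) : ℕ) : ℝ) / (d : ℝ) - ε <
               (padicValRat (p : ℕ) (Algebra.norm ℚ (c i)) : ℝ) / (((p : ℝ) - 1) * m))))
    ∧
    (∃ (m : ℕ) (f : MvPolynomial (Fin n) (AlgebraicClosure (ZMod (p : ℕ)))),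
       1 ≤ m ∧ (∀ s, MvPolynomial.coeff s f ^ ((p : ℕ) ^ m) = MvPolynomial.coeff s f) ∧
       f.totalDegree = d ∧
       (∀ x : Fin n → AlgebraicClosure (ZMod (p : ℕ)),
          (∀ i, x i * MvPolynomial.eval x
              (MvPolynomial.pderiv i (MvPolynomial.homogeneousComponent d f)) = 0) → x = 0) ∧
       ∀ c : ℕ → CyclotomicField p ℚ, c 0 = 1 →
       (∀ r : ℕ, 1 ≤ r → (r : CyclotomicField p ℚ) * c r =
           (-1) ^ (n - 1) * ∑ j ∈ Finset.Icc 1 r,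
             (∑ a : ZMod (p : ℕ), ζ ^ a.val *
               ((Nat.card {x : Fin n → AlgebraicClosure (ZMod (p : ℕ)) //
                  (∀ i, x i ^ ((p : ℕ) ^ (m * j)) = x i) ∧
                  ∑ t ∈ Finset.range (m * j), (MvPolynomial.eval x f) ^ ((p : ℕ) ^ t) =
                    algebraMap (ZMod (p : ℕ)) (AlgebraicClosure (ZMod (p : ℕ))) a} : ℕ) :
                  CyclotomicField p ℚ)) * c (r - j)) →
       ∃ i j : ℕ, i ≤ k ∧ k ≤ j ∧ j ≤ (d - 1) ^ n ∧ c i ≠ 0 ∧ c j ≠ 0 ∧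
         ((i < j ∧
            ((j : ℝ) - k) * ((padicValRat (p : ℕ) (Algebra.norm ℚ (c i)) : ℝ) / (((p : ℝ) - 1) * m))
            + ((k : ℝ) - i) * ((padicValRat (p : ℕ) (Algebra.norm ℚ (c j)) : ℝ) / (((p : ℝ) - 1) * m))
              < ((j : ℝ) - i) * (∑ u ∈ T, ((∑ i, ((u i : ℕ) + 1) : ℕ) : ℝ) / (d : ℝ) + ε))
          ∨ (i = j ∧ (padicValRat (p : ℕ) (Algebra.norm ℚ (c i)) : ℝ) / (((p : ℝ) - 1) * m) <
               ∑ u ∈ T, ((∑ i, ((u i : ℕ) + 1) : ℕ) : ℝ) / (d : ℝ) + ε))) := by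
  intro n d hn hd ε hε
  obtain ⟨B, hB⟩ : ∃ B : ℕ, B = 2 * ((d - 1) ^ n * (n * (d * d))) := ⟨_, rfl⟩
  refine ⟨5 + (d - 1) ^ n + 2 * d * (d + 1) + (B + 2) + (⌈(B : ℝ) / ε⌉₊ + 1), ?_⟩
  intro p hp hPp hnd ζ hζ k hk T hT hmin
  have hne0 : NeZero ((p : ℕ) : ℚ) := ⟨by exact_mod_cast p.ne_zero⟩
  have hcyc : IsCyclotomicExtension {(p : ℕ)} ℚ (CyclotomicField p ℚ) :=
    CyclotomicField.isCyclotomicExtension (p : ℕ) ℚ
  have hd' : (1 : ℝ) ≤ d := by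
    have : 1 ≤ d := by omega
    exact_mod_cast this
  have hreal : (B : ℝ) < ε * (((p : ℕ) : ℝ) - 1) * d := by
    have h1 : (B : ℝ) / ε ≤ ⌈(B : ℝ) / ε⌉₊ := Nat.le_ceil _
    have h2 : ((⌈(B : ℝ) / ε⌉₊ + 1 : ℕ) : ℝ) < ((p : ℕ) : ℝ) := by
      have : ⌈(B : ℝ) / ε⌉₊ + 1 < (p : ℕ) := by omega
      exact_mod_cast this
    push_cast at h2
    have h3 : (B : ℝ) / ε < ((p : ℕ) : ℝ) - 1 := by linarith
    rw [div_lt_iff₀ hε] at h3
    have h4 : 0 ≤ (((p : ℕ) : ℝ) - 1) * ε := le_trans (Nat.cast_nonneg B) h3.le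
    calc (B : ℝ) < (((p : ℕ) : ℝ) - 1) * ε := h3
      _ = (((p : ℕ) : ℝ) - 1) * ε * 1 := (mul_one _).symm
      _ ≤ (((p : ℕ) : ℝ) - 1) * ε * d := mul_le_mul_of_nonneg_left hd' h4
      _ = ε * (((p : ℕ) : ℝ) - 1) * d := by ring
  have hB1 : 2 * (((d - 1) ^ n * (n * d) : ℕ) : ℝ) ≤ B := by
    have h1 : 2 * ((d - 1) ^ n * (n * d)) ≤ B := by
      rw [hB]
      refine Nat.mul_le_mul_left _ (Nat.mul_le_mul_left _ (Nat.mul_le_mul_left _ ?_))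
      exact Nat.le_mul_of_pos_left _ (by omega)
    exact_mod_cast h1
  have hB2 : (((d - 1) ^ n * (n * (d * d)) : ℕ) : ℝ) ≤ B := by
    have h1 : (d - 1) ^ n * (n * (d * d)) ≤ B := by omega
    exact_mod_cast h1
  refine ⟨?_, ?_⟩
  · intro m f hm hfm hf hsm c hc0 hc i j hik hkj hj hci hcj
    refine Pool.Agent.H425.partA n d hn hd ε hε (p : ℕ) (by omega) (by omega)
      (lt_of_le_of_lt hB1 hreal) (CyclotomicField p ℚ) ζ hζ k T hT hmin m f hm hfm hf hsm c hc0 ?_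
      i j hik hkj hj hci hcj
    intro r hr
    rw [hc r hr]
    congr 1
    refine Finset.sum_congr rfl fun j _ => ?_
    congr 1
    exact Pool.Agent.H425.expSum_zmod (p : ℕ) f (m * j) ζ
  · obtain ⟨m, f, hm, hfm, hf, hsm, hcc⟩ := Pool.Agent.H425.partB n d hn hd ε (p : ℕ) (by omega)
      (by omega) (by omega) hnd (by omega) (lt_of_le_of_lt hB2 hreal) (CyclotomicField p ℚ) ζ hζ k T
      hT hmin
    refine ⟨m, f, hm, hfm, hf, hsm, ?_⟩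
    intro c hc0 hc
    refine hcc c hc0 ?_
    intro r hr
    rw [hc r hr]
    congr 1
    refine Finset.sum_congr rfl fun j _ => ?_
    congr 1
    exact Pool.Agent.H425.expSum_zmod (p : ℕ) f (m * j) ζ

end Pool.Agent.S16339
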