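import Pool.Statements.S17705
import Pool.Agent.H589.Irr.Final

set_option autoImplicit false
open Pool Pool.MP_8cce2a_nt

namespace Pool.Agent.S17705

/-- The fraction of the 2^(n-1) subsets S of {1,…,n−1} for which x^n + 1 + sum over i in S of x^i is irreducible over the integers tends to 1 as n goes to infinity. -/
theorem result :
    Filter.Tendsto
      (fun n : ℕ =>
        (({S : Finset ℕ | S ⊆ Finset.Ioo 0 n ∧
            Irreducible ((Polynomial.X : Polynomial ℤ) ^ n + 1 +
              ∑ i ∈ S, (Polynomial.X : Polynomial ℤ) ^ i)} : Set (Finset ℕ)).ncard : ℝ)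
          / (2 : ℝ) ^ (n - 1))
      Filter.atTop (nhds 1) :=
  Pool.Agent.H589.Irr.final_zeroOne

end Pool.Agent.S17705
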