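import Pool.Statements.S18577
import Pool.Agent.H426.Two.Hyp

set_option autoImplicit false
open NumberField
open Pool Pool.MP_d1d051_nt

namespace Pool.Agent.S18577

/-- For number field k, places S (all infinite plus finite T), hyperplanes over k in general position, δ≥1, ε>0: some C bounds m_{D,S}(P) < (2δn+ε)h(P)+C for every point P of degree ≤δ over k off the hyperplanes. -/
theorem result :
    ∀ (k : Type) [Field k] [NumberField k] (T : Finset (FinitePlace k)) (n q : ℕ)
      (a : Fin q → Fin (n + 1) → k),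
      (∀ s : Finset (Fin q), s.card ≤ n + 1 → LinearIndependent k (fun i : s => a i)) →
      ∀ δ : ℕ, 1 ≤ δ → ∀ ε : ℝ, 0 < ε → ∃ C : ℝ,
        ∀ (L : Type) [Field L] [NumberField L] [Algebra k L], Module.finrank k L ≤ δ →
          ∀ x : Fin (n + 1) → L, x ≠ 0 →
            (∀ i, ∑ j, algebraMap k L (a i j) * x j ≠ 0) →
            (1 / (Module.finrank ℚ L : ℝ)) *
                ((∑ w : InfinitePlace L, (w.mult : ℝ) *
                    ∑ i, Real.log ((⨆ j, w (x j)) * (⨆ j, w (algebraMap k L (a i j))) /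
                      w (∑ j, algebraMap k L (a i j) * x j))) +
                  ∑ᶠ (w : FinitePlace L)
                    (_ : ∃ v ∈ T, ∀ y : k, (v y < 1 ↔ w (algebraMap k L y) < 1)),
                    ∑ i, Real.log ((⨆ j, w (x j)) * (⨆ j, w (algebraMap k L (a i j))) /
                      w (∑ j, algebraMap k L (a i j) * x j)))
              < (2 * (δ : ℝ) * (n : ℝ) + ε) *
                  ((1 / (Module.finrank ℚ L : ℝ)) *
                    ((∑ w : InfinitePlace L, (w.mult : ℝ) * Real.log (⨆ j, w (x j))) +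
                      ∑ᶠ w : FinitePlace L, Real.log (⨆ j, w (x j)))) + C := by
  intro k _ _ T n q a hgp δ _ ε hε
  obtain ⟨C, hC0, hC⟩ := Pool.Agent.H426.Two.main_hyp T a hgp δ hε
  refine ⟨C + 1, fun L _ _ _ hL x hx hlx => ?_⟩
  have h1 := hC L hL x hx hlx
  have hh : 0 ≤ (∑ w : InfinitePlace L, (w.mult : ℝ) * Real.log (⨆ j, w (x j))) +
      ∑ᶠ w : FinitePlace L, Real.log (⨆ j, w (x j)) := by
    rw [← Pool.Agent.H658.Two.height_places x hx]
    exact Height.logHeight_nonneg x
  have hd : (1 : ℝ) ≤ Module.finrank ℚ L := by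
    have : 0 < Module.finrank ℚ L := Module.finrank_pos
    exact_mod_cast this
  have hd0 : (0 : ℝ) < Module.finrank ℚ L := by linarith
  have hLδ : (Module.finrank k L : ℝ) ≤ δ := by exact_mod_cast hL
  have h2 : (2 * ((n : ℝ) * Module.finrank k L) + ε) *
      ((∑ w : InfinitePlace L, (w.mult : ℝ) * Real.log (⨆ j, w (x j))) +
        ∑ᶠ w : FinitePlace L, Real.log (⨆ j, w (x j))) ≤ (2 * (δ : ℝ) * (n : ℝ) + ε) *
      ((∑ w : InfinitePlace L, (w.mult : ℝ) * Real.log (⨆ j, w (x j))) +
        ∑ᶠ w : FinitePlace L, Real.log (⨆ j, w (x j))) := by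
    refine mul_le_mul_of_nonneg_right ?_ hh
    have h3 := mul_le_mul_of_nonneg_left hLδ (Nat.cast_nonneg (α := ℝ) n)
    linarith
  have h4 := h1.trans (add_le_add h2 le_rfl)
  have h5 := mul_le_mul_of_nonneg_left h4 (by positivity : (0 : ℝ) ≤ 1 / (Module.finrank ℚ L : ℝ))
  refine lt_of_le_of_lt h5 ?_
  rw [mul_add, mul_left_comm]
  have h6 : 1 / (Module.finrank ℚ L : ℝ) * C ≤ C := by
    rw [one_div, inv_mul_le_iff₀ hd0]
    exact le_mul_of_one_le_left hC0 hd
  linarith

end Pool.Agent.S18577
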