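import Pool.Statements.S19235
import Pool.Agent.H976.C.FR

set_option autoImplicit false
open Pool Pool.MP_2c2d16_pr

namespace Pool.Agent.S19235

/-- Averaging the Lovász number (SDP form) over all circulant graphs on Z_n given by a uniform subset S of {1..n/2} of connection distances, then dividing by sqrt(n), gives a quantity that tends to 1 as n grows. -/
theorem result :
    Filter.Tendsto
      (fun n : ℕ =>
        ((∑ S ∈ (Finset.Icc 1 (n / 2)).powerset,
            sSup {r : ℝ | ∃ B : Matrix (Fin n) (Fin n) ℝ,
              B.PosSemidef ∧ B.trace = 1 ∧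
              (∀ i j : Fin n,
                (SimpleGraph.fromRel
                  (fun a b : Fin n => min (b - a).val (a - b).val ∈ S)).Adj i j →
                  B i j = 0) ∧
              r = ∑ i, ∑ j, B i j}) / (2 : ℝ) ^ (n / 2)) / Real.sqrt (n : ℝ))
      Filter.atTop (nhds 1) :=
  Pool.Agent.H976.C.main

end Pool.Agent.S19235
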