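import Pool.Statements.S19411
import Pool.Agent.H589.Irr.Final

set_option autoImplicit false
open Polynomial Filter
open Pool Pool.MP_769d0b_pr

namespace Pool.Agent.S19411

/-- Among all 2^(n+1) polynomials of degree n with every coefficient ±1, the fraction that are not irreducible over the rationals tends to 0 as n goes to infinity. -/
theorem result :
    Tendsto
      (fun n : ℕ =>
        (Nat.card {f : Fin (n + 1) → Bool //
            ¬ Irreducible (∑ i : Fin (n + 1),
              Polynomial.C (if f i then (1 : ℚ) else -1) * Polynomial.X ^ (i : ℕ))} : ℝ)
          / (2 : ℝ) ^ (n + 1))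
      atTop (nhds 0) :=
  Pool.Agent.H589.Irr.final_littlewood

end Pool.Agent.S19411
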