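import Pool.Statements.S19565
import Pool.Agent.H964.LF.Stm
import Pool.Agent.H282.LF.TA1
import Pool.Agent.H261.LF.CORE
import Pool.Agent.H947.LF.RES
import Pool.Agent.H20.LF.RG
import Pool.Agent.H448.LF.BB
import Pool.Agent.H967.LF.DET
import Pool.Agent.H415.LF.LOB
import Pool.Agent.H134.LF.LOWA
import Pool.Agent.H772.LF.GPA
import Pool.Agent.H195.LF.GP
import Pool.Agent.H736.LF.PL1
import Pool.Agent.H404.LF.PLM
import Pool.Agent.H357.LF.ENDP
import Pool.Agent.H314.LF.BAS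
import Pool.Agent.H52.LF.DEC
import Pool.Agent.H264.LF.PIN
import Pool.Agent.H400.LF.STEEP
import Pool.Agent.H322.LF.STEEP2
import Pool.Agent.H117.LF.GV
import Pool.Agent.H284.LF.GAIN
import Pool.Agent.H589.LF.RN1
import Pool.Agent.H16.LF.RENO
import Pool.Agent.H124.LF.DT1
import Pool.Agent.H178.LF.DT2
import Pool.Agent.H448.LF.DT3
import Pool.Agent.H897.LF.DT4
import Pool.Agent.H747.LF.CHART
import Pool.Agent.H921.LF.TAIL
import Pool.Agent.H59.LF.LOW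
import Pool.Agent.H767.LF.UPP
import Pool.Agent.H100.LF.FIN

set_option autoImplicit false
open Pool Pool.MP_adb013_pr

namespace Pool.Agent.S19565

/-- For every d ≥ 3 there are c, C > 0 such that a uniformly random real 1-Lipschitz function on the d-dim torus of side 2(n+1), pinned at the origin, has maximum between c(log n)^{1/d} and C(log n)^{1/d} with probability tending to 1. -/
theorem result :
    ∀ d : ℕ, 3 ≤ d → ∃ c C : ℝ, 0 < c ∧ 0 < C ∧
      Filter.Tendsto (fun n : ℕ =>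
        (MeasureTheory.volume {ψ : (Fin d → ZMod (2 * n + 2)) → ℝ |
            0 ≤ ψ 0 ∧ ψ 0 ≤ 1 ∧
            (∀ x : Fin d → ZMod (2 * n + 2), ∀ i : Fin d,
              |ψ (x + (Pi.single i 1 : Fin d → ZMod (2 * n + 2))) - ψ x| ≤ 1) ∧
            c * Real.log ((n : ℝ) + 1) ^ ((1 : ℝ) / d) ≤ (⨆ x, ψ x) - ψ 0 ∧
            (⨆ x, ψ x) - ψ 0 ≤ C * Real.log ((n : ℝ) + 1) ^ ((1 : ℝ) / d)}).toReal /
        (MeasureTheory.volume {ψ : (Fin d → ZMod (2 * n + 2)) → ℝ |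
            0 ≤ ψ 0 ∧ ψ 0 ≤ 1 ∧
            (∀ x : Fin d → ZMod (2 * n + 2), ∀ i : Fin d,
              |ψ (x + (Pi.single i 1 : Fin d → ZMod (2 * n + 2))) - ψ x| ≤ 1)}).toReal)
        Filter.atTop (nhds 1) := by
  have hPL1 := Pool.Agent.H736.LF.t_PL1
  have hPLM := Pool.Agent.H404.LF.t_PLM hPL1
  have hENDP := Pool.Agent.H357.LF.t_ENDP hPLM
  have hBAS := Pool.Agent.H314.LF.t_BAS
  have hDEC := Pool.Agent.H52.LF.t_DEC hBAS
  have hPIN := Pool.Agent.H264.LF.t_PIN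
  have hSTEEP := Pool.Agent.H400.LF.t_STEEP hPLM hENDP hBAS hDEC hPIN
  have hSTEEP2 := Pool.Agent.H322.LF.t_STEEP2 hSTEEP
  have hGV := Pool.Agent.H117.LF.t_GV
  have hGAIN := Pool.Agent.H284.LF.t_GAIN hGV hBAS
  have hCORE := Pool.Agent.H261.LF.t_CORE hPLM hBAS hDEC hGAIN
  have hRG := Pool.Agent.H20.LF.t_RG
  have hRES := Pool.Agent.H947.LF.t_RES hRG hBAS
  have hGPA := Pool.Agent.H772.LF.t_GPA
  have hGP := Pool.Agent.H195.LF.t_GP hGPA hSTEEP2
  have hBB := Pool.Agent.H448.LF.t_BB hBAS hDEC hGP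
  have hRN1 := Pool.Agent.H589.LF.t_RN1
  have hRENO := Pool.Agent.H16.LF.t_RENO hRN1
  have hDT1 := Pool.Agent.H124.LF.t_DT1
  have hDT2 := Pool.Agent.H178.LF.t_DT2
  have hDT3 := Pool.Agent.H448.LF.t_DT3
  have hDT4 := Pool.Agent.H897.LF.t_DT4
  have hDET := Pool.Agent.H967.LF.t_DET hDT1 hDT2 hDT3 hDT4
  have hCHART := Pool.Agent.H747.LF.t_CHART
  have hTA1 := Pool.Agent.H282.LF.t_TA1 hBAS hDEC hCORE hRES hBB hRENO hDET hPIN
  have hTAIL := Pool.Agent.H921.LF.t_TAIL hTA1 hCHART hPIN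
  have hLOB := Pool.Agent.H415.LF.t_LOB
  have hLOWA := Pool.Agent.H134.LF.t_LOWA hLOB
  have hLOW := Pool.Agent.H59.LF.t_LOW hTAIL hLOWA hPIN
  have hUPP := Pool.Agent.H767.LF.t_UPP hTAIL hPIN
  exact Pool.Agent.H100.LF.t_FIN hLOW hUPP hPIN

end Pool.Agent.S19565
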