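import Pool.Statements.S19747
import Pool.Agent.H979.QIP.LRP2

set_option autoImplicit false
open MeasureTheory ProbabilityTheory Filter
open Pool Pool.MP_f50824_pr

namespace Pool.Agent.S19747

/-- probability measures on the booleans -/
theorem bool_ext {m m' : Measure Bool} [IsProbabilityMeasure m] [IsProbabilityMeasure m']
    (h : m {true} = m' {true}) : m = m' := by
  have hc : ∀ (r : Measure Bool) [IsProbabilityMeasure r], r {false} = 1 - r {true} := by
    intro r _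
    have h1 := prob_compl_eq_one_sub (μ := r) (measurableSet_singleton true)
    rw [← h1]
    congr 1
    ext b
    cases b <;> simp
  refine Measure.ext_of_singleton fun b => ?_
  cases b
  · rw [hc m, hc m', h]
  · exact h

open scoped Classical in
/-- the environment without the diagonal -/
noncomputable def xi' {d : ℕ} {Ω : Type} (ξ : Sym2 (Fin d → ℤ) → Ω → Bool)
    (e : Sym2 (Fin d → ℤ)) (ω : Ω) : Bool :=
  if e.IsDiag then false else ξ e ω

theorem xi'_off {d : ℕ} {Ω : Type} (ξ : Sym2 (Fin d → ℤ) → Ω → Bool) {x y : Fin d → ℤ}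
    (h : x ≠ y) (ω : Ω) : xi' ξ s(x, y) ω = ξ s(x, y) ω := by
  unfold xi'
  rw [if_neg (by rwa [Sym2.mk_isDiag_iff])]

/-- For d≥3, s in (d+2,2d] and any admissible kernel with decay ∣x∣^(-s+o(1)), a.s. the rescaled interpolated simple random walk on long-range percolation converges on C([0,T]) to Brownian motion with a fixed nondegenerate covariance. -/
theorem result :
  ∀ (d : ℕ), 3 ≤ d → ∀ (α : ℝ), (d : ℝ) + 2 < α → α ≤ 2 * (d : ℝ) →
  ∀ (p : (Fin d → ℤ) → ℝ),
    (∀ x, 0 ≤ p x ∧ p x ≤ 1) → (∀ x, p (-x) = p x) → p 0 = 0 →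
    (∀ x : Fin d → ℤ, ∑ i, |x i| = 1 → p x = 1) →
    (∀ ε : ℝ, 0 < ε → ∃ R : ℝ, ∀ x : Fin d → ℤ, R ≤ ((∑ i, |x i| : ℤ) : ℝ) →
        ((∑ i, |x i| : ℤ) : ℝ) ^ (-α - ε) ≤ p x ∧ p x ≤ ((∑ i, |x i| : ℤ) : ℝ) ^ (-α + ε)) →
  ∀ (Ω : Type) (mΩ : MeasurableSpace Ω) (P : Measure Ω), IsProbabilityMeasure P →
  ∀ (ξ : Sym2 (Fin d → ℤ) → Ω → Bool),
    (∀ e, Measurable (ξ e)) → iIndepFun ξ P →
    (∀ x y : Fin d → ℤ, x ≠ y → P {ω | ξ s(x, y) ω = true} = ENNReal.ofReal (p (y - x))) →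
  ∃ (S : Matrix (Fin d) (Fin d) ℝ), S.PosDef ∧
  ∃ (Ω' : Type) (mΩ' : MeasurableSpace Ω') (P' : Measure Ω'), IsProbabilityMeasure P' ∧
  ∃ W : ℝ → Ω' → (Fin d → ℝ),
    (∀ t, Measurable (W t)) ∧ (∀ ω', Continuous (fun t => W t ω')) ∧
    (∀ (k : ℕ) (t : Fin k → ℝ) (u : Fin k → Fin d → ℝ), (∀ j, 0 ≤ t j) →
      ∫ ω', Complex.exp (Complex.I * ((∑ j, ∑ a, u j a * W (t j) ω' a : ℝ) : ℂ)) ∂P' =
        Complex.exp (-((∑ j, ∑ l, min (t j) (t l) *
            (∑ a, ∑ b, u j a * S a b * u l b) : ℝ) : ℂ) / 2)) ∧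
    ∀ᵐ ω ∂P, ∀ T : ℝ, 0 < T →
      ∀ F : UniformFun (Set.Icc (0:ℝ) T) (Fin d → ℝ) → ℝ, Continuous F → (∃ C : ℝ, ∀ f, |F f| ≤ C) →
      Tendsto (fun n : ℕ =>
        ∑' z : Fin (⌊T * n⌋₊ + 1 + 1) → (Fin d → ℤ),
          ((if z 0 = 0 then (1:ℝ) else 0) *
            ∏ i : Fin (⌊T * n⌋₊ + 1),
              (if z i.castSucc ≠ z i.succ ∧ ξ s(z i.castSucc, z i.succ) ω = true
                then (1:ℝ) else 0) /
                (({y : Fin d → ℤ | y ≠ z i.castSucc ∧ ξ s(z i.castSucc, y) ω = true}.ncard : ℕ) : ℝ)) *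
          F (UniformFun.ofFun (fun t : Set.Icc (0:ℝ) T =>
              (1 / Real.sqrt n) •
                ((fun i => (((if h : ⌊t.1 * n⌋₊ < ⌊T * n⌋₊ + 1 + 1
                      then z ⟨⌊t.1 * n⌋₊, h⟩ else 0) i : ℤ) : ℝ)) +
                  (t.1 * n - (⌊t.1 * n⌋₊ : ℝ)) •
                    ((fun i => (((if h : ⌊t.1 * n⌋₊ + 1 < ⌊T * n⌋₊ + 1 + 1
                      then z ⟨⌊t.1 * n⌋₊ + 1, h⟩ else 0) i : ℤ) : ℝ)) -
                     (fun i => (((if h : ⌊t.1 * n⌋₊ < ⌊T * n⌋₊ + 1 + 1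
                      then z ⟨⌊t.1 * n⌋₊, h⟩ else 0) i : ℤ) : ℝ)))))))
        atTop (nhds (∫ ω', F (UniformFun.ofFun (fun t : Set.Icc (0:ℝ) T => W t.1 ω')) ∂P')) := by
  intro d hd α hα _ p hp _ hp0 hnn hdec Ω mΩ P hP ξ hξm hξi hξp
  classical
  haveI := hP
  -- the environment without the diagonal
  set ξ' : Sym2 (Fin d → ℤ) → Ω → Bool := xi' ξ with hξ'
  have hξ'm : ∀ e, Measurable (ξ' e) := by
    intro e
    by_cases he : e.IsDiag
    · have : ξ' e = fun _ => false := by funext ω; simp [hξ', xi', he]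
      rw [this]; exact measurable_const
    · have : ξ' e = ξ e := by funext ω; simp [hξ', xi', he]
      rw [this]; exact hξm e
  have hξ'i : iIndepFun ξ' P := by
    have h1 := hξi.comp (fun (e : Sym2 (Fin d → ℤ)) (b : Bool) => if e.IsDiag then false else b)
      (fun e => measurable_of_countable _)
    exact h1
  set ν : Sym2 (Fin d → ℤ) → Measure Bool := fun e => P.map (ξ' e) with hν
  haveI hνp : ∀ e, IsProbabilityMeasure (ν e) := fun e =>
    Measure.isProbabilityMeasure_map (hξ'm e).aemeasurable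
  have hνt : ∀ x y : Fin d → ℤ, x ≠ y → ν s(x, y) {true} = ENNReal.ofReal (p (y - x)) := by
    intro x y hxy
    rw [← hξp x y hxy]
    simp only [hν]
    rw [Measure.map_apply (hξ'm _) (measurableSet_singleton true)]
    congr 1
    ext ω
    simp only [Set.mem_preimage, Set.mem_singleton_iff, Set.mem_setOf_eq, hξ']
    rw [xi'_off ξ hxy]
  have hνd : ∀ x : Fin d → ℤ, ν s(x, x) {true} = 0 := by
    intro x
    simp only [hν]
    rw [Measure.map_apply (hξ'm _) (measurableSet_singleton true)]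
    have : ξ' s(x, x) ⁻¹' {true} = ∅ := by
      ext ω
      simp [hξ', xi']
    rw [this, measure_empty]
  have hνs : ∀ (x : Fin d → ℤ) (e : Sym2 (Fin d → ℤ)), ν (Pool.Agent.H979.QIP.esh x e) = ν e := by
    intro x e
    induction e with
    | _ a b =>
      rw [Pool.Agent.H979.QIP.esh_mk]
      refine bool_ext ?_
      by_cases hab : a = b
      · subst hab
        rw [hνd, hνd]
      · rw [hνt a b hab, hνt (a + x) (b + x) (fun h => hab (add_right_cancel h)),
          add_sub_add_right_eq_sub]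
  have hνn : ∀ i : Fin d, ν s(0, Pi.single i 1) {true} = 1 := by
    intro i
    rw [hνt 0 _ (by
      intro h
      have := congrFun h i
      simp at this), sub_zero, hnn, ENNReal.ofReal_one]
    rw [Finset.sum_eq_single i]
    · simp
    · intro j _ hj
      simp [hj]
    · intro h; exact absurd (Finset.mem_univ i) h
  have hνP : ∀ y : Fin d → ℤ, ν s(0, y) {true} ≤ ENNReal.ofReal (p y) := by
    intro y
    by_cases hy : y = 0
    · subst hy
      rw [hνd]
      exact zero_le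
    · rw [hνt 0 y (Ne.symm hy), sub_zero]
  obtain ⟨S, hS, Ω', mΩ', P', hP', W, hWm, hWc, hW, hconv⟩ :=
    Pool.Agent.H979.QIP.lrp_main (by omega) ν hνs hνn hνP
      (Pool.Agent.H979.QIP.lrp_moment hα (by omega) hp hdec)
  refine ⟨S, hS, Ω', mΩ', P', hP', W, hWm, hWc, hW, ?_⟩
  have hmap : P.map (fun ω e => ξ' e ω) = Measure.infinitePi ν :=
    hξ'i.map_fun_eq_infinitePi_map hξ'm
  rw [← hmap] at hconv
  have h1 := ae_of_ae_map (measurable_pi_lambda _ fun e => hξ'm e).aemeasurable hconv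
  filter_upwards [h1] with ω hω T hT F hF hFb
  refine (hω T hT F hF hFb).congr fun n => tsum_congr fun z => ?_
  congr 1
  -- the weights
  unfold Pool.Agent.H979.QIP.jwt
  rw [ENNReal.toReal_mul, ENNReal.toReal_prod]
  congr 1
  · split_ifs <;> simp
  · refine Finset.prod_congr rfl fun i _ => ?_
    rw [ENNReal.toReal_div, Pool.Agent.H979.QIP.Dg_shf, Pool.Agent.H979.QIP.cl_shf]
    congr 1
    · by_cases h0 : z i.castSucc = z i.succ
      · simp [h0]
      · rw [xi'_off ξ h0 ω]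
        split_ifs <;> simp
    · congr 2
      ext y
      simp only [Set.mem_setOf_eq]
      refine and_congr_right fun hy => ?_
      rw [xi'_off ξ (Ne.symm hy) ω]

end Pool.Agent.S19747
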